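import Pool.Agent.Q59.DN.Main
import Pool.Agent.Q59.RL.Level

/-!
# Transport of a Hodge character of bounded size to one degree
-/

namespace Pool.Agent.Q59.DN

open Finset Pool.Agent.H916R2 Pool.Agent.Q59.FS Pool.Agent.Q59.PL
open Pool.Agent.Q59.RL (B0 half_add_half Adm AdmSys)

section Adm

variable {m : ℕ} {A : Multiset (ZMod m) → Prop}

lemma gen_of_B0 (hA : Adm m A) {s : Multiset (ZMod m)} (h : Generated m (B0 m) s) : A s := by
  induction h with
  | ofBase s hs => exact hs.elim
  | pair a ha => exact hA.pair a ha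
  | standard p hp hp2 hpm a ha => exact hA.standard p hp hp2 hpm a ha
  | standardTwo hm a ha => exact hA.standardTwo hm a ha
  | join s t _ _ ihs iht => exact hA.join s t ihs iht
  | cancel a s _ ih => exact hA.cancel a s ih

lemma cancel_multi (hA : Adm m A) (u t : Multiset (ZMod m))
    (h : A (u + u.map Neg.neg + t)) : A t := by
  induction u using Multiset.induction_on with
  | empty => simpa using h
  | cons a u ih =>
    apply ih
    apply hA.cancel a
    have e : a ::ₘ -a ::ₘ (u + u.map Neg.neg + t) = a ::ₘ u + (a ::ₘ u).map Neg.neg + t := by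
      rw [Multiset.map_cons, Multiset.cons_add, Multiset.cons_add, Multiset.add_cons,
        Multiset.cons_add]
    rw [e]
    exact h

lemma adm_sub (hA : Adm m A) {s t : Multiset (ZMod m)} (h : A (s + t)) (ht : A t) : A s := by
  apply cancel_multi hA t s
  have e : t + t.map Neg.neg + s = s + t + t.map Neg.neg := by abel
  rw [e]
  exact hA.join _ _ h (hA.neg t ht)

end Adm

section Sys

variable {m : ℕ} [NeZero m]

/-- the converse of `IsHodge.iota` -/
lemma isHodge_of_iota {k M : ℕ} [NeZero M] (h : k * M = m) {t : Multiset (ZMod M)}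
    (ht : IsHodge m (t.map (iota k : ZMod M → ZMod m))) : IsHodge M t := by
  refine isHodge_of_saw (fun h0 => ht.1 (Multiset.mem_map.mpr ⟨0, h0, iota_zero⟩)) ?_ ?_
  · have := ht.2.1
    rwa [Multiset.card_map] at this
  · intro u
    obtain ⟨u', rfl⟩ := ZMod.unitsMap_surjective (Dvd.intro_left k h : M ∣ m) u
    have h1 := ht.rel u'
    have hk : (k : ℤ) ≠ 0 := by
      have : k ≠ 0 := by
        rintro rfl
        rw [zero_mul] at h
        exact NeZero.ne m h.symm
      exact_mod_cast this
    have h2 : ((t.map (iota k : ZMod M → ZMod m)).map fun a => saw ((u' : ZMod m) * a)).sum = 0 := by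
      rw [← sum_count]
      simp only [smul_eq_mul]
      exact h1
    rw [Multiset.map_map] at h2
    have h3 : (t.map ((fun a => saw ((u' : ZMod m) * a)) ∘ (iota k : ZMod M → ZMod m))) =
        t.map fun b => (k : ℤ) *
          saw (((ZMod.unitsMap (Dvd.intro_left k h : M ∣ m) u' : (ZMod M)ˣ) : ZMod M) * b) := by
      refine Multiset.map_congr rfl fun b _ => ?_
      rw [Function.comp_apply, unit_iota h, saw_iota h]
    rw [h3, Multiset.sum_map_mul_left] at h2
    exact (mul_eq_zero.mp h2).resolve_left hk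

/-- the element of degree `M` corresponding to an element of degree `m` killed by `M` -/
def down (m M : ℕ) (a : ZMod m) : ZMod M := ((M * a.val / m : ℕ) : ZMod M)

lemma iota_down {M : ℕ} [NeZero M] {a : ZMod m} (ha : (M : ZMod m) * a = 0) :
    (iota m (down m M a) : ZMod (M * m)) = iota M a := by
  have h1 : m ∣ M * a.val := by
    rw [← ZMod.natCast_eq_zero_iff]
    push_cast
    rw [ZMod.natCast_zmod_val]
    exact ha
  unfold down
  rw [iota_natCast (mul_comm m M), Nat.mul_div_cancel' h1]
  rfl

lemma map_iota_down {M : ℕ} [NeZero M] {s : Multiset (ZMod m)}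
    (hs : ∀ a ∈ s, (M : ZMod m) * a = 0) :
    (s.map (down m M)).map (iota m : ZMod M → ZMod (M * m)) =
      s.map (iota M : ZMod m → ZMod (M * m)) := by
  rw [Multiset.map_map]
  exact Multiset.map_congr rfl fun a ha => iota_down (hs a ha)

lemma hodge_down {M : ℕ} [NeZero M] {s : Multiset (ZMod m)}
    (hs : ∀ a ∈ s, (M : ZMod m) * a = 0) (h : IsHodge m s) : IsHodge M (s.map (down m M)) := by
  have : NeZero (M * m) := ⟨Nat.mul_ne_zero (NeZero.ne M) (NeZero.ne m)⟩
  apply isHodge_of_iota (mul_comm m M)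
  rw [map_iota_down hs]
  exact h.iota rfl

lemma sys_down {A : ∀ m : ℕ, Multiset (ZMod m) → Prop} (hA : AdmSys A) {M : ℕ} [NeZero M]
    {s : Multiset (ZMod m)} (hs : ∀ a ∈ s, (M : ZMod m) * a = 0) :
    A m s ↔ A M (s.map (down m M)) := by
  have h0 : 0 < M * m := Nat.mul_pos (NeZero.pos M) (NeZero.pos m)
  rw [hA.level M m (M * m) h0 rfl, hA.level m M (M * m) h0 (mul_comm m M), map_iota_down hs]

/-- **Transport to one degree.** -/
theorem transport {N : ℕ} (hm : 2 ≤ m) {s : Multiset (ZMod m)} (hs : IsHodge m s)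
    (hcard : Multiset.card s ≤ N) :
    ∃ s0 ≤ s, (∀ a ∈ s0, (lev N : ZMod m) * a = 0) ∧
      ∃ t : Multiset (ZMod (lev N)),
        (t = s0.map (down m (lev N)) ∨
          (2 ∣ m ∧ t = ((lev N / 2 : ℕ) : ZMod (lev N)) ::ₘ s0.map (down m (lev N)))) ∧
        IsHodge (lev N) t ∧ Multiset.card t ≤ N ∧
        ∀ A : ∀ m : ℕ, Multiset (ZMod m) → Prop, AdmSys A → (A m s ↔ A (lev N) t) := by
  have hM : NeZero (lev N) := ⟨(lev_pos N).ne'⟩
  obtain ⟨s0, s1, hs01, hk, h⟩ := splitting hm hs hcard
  refine ⟨s0, hs01 ▸ Multiset.le_add_right s0 s1, hk, ?_⟩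
  rcases h with ⟨h1, h2⟩ | ⟨h2m, h1, h2⟩
  · refine ⟨s0.map (down m (lev N)), Or.inl rfl, hodge_down hk h1, ?_, fun A hA => ?_⟩
    · rw [Multiset.card_map]
      refine le_trans (Multiset.card_le_card ?_) hcard
      exact hs01 ▸ Multiset.le_add_right s0 s1
    · rw [← sys_down hA hk, hs01]
      have hAm := hA.adm m (NeZero.pos m)
      have h3 := gen_of_B0 hAm h2
      exact ⟨fun h => adm_sub hAm h h3, fun h => hAm.join _ _ h h3⟩
  · have hhh := half_add_half h2m
    have hN : 0 < N := by
      rcases Nat.eq_zero_or_pos N with h0 | h0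
      · exfalso
        rw [h0, Nat.le_zero, Multiset.card_eq_zero] at hcard
        rw [hcard] at hs01
        have e1 : s0 = 0 := by
          apply Multiset.card_eq_zero.mp
          have := congrArg Multiset.card hs01
          rw [Multiset.card_zero, Multiset.card_add] at this
          omega
        have := h1.2.1
        rw [e1] at this
        simp at this
      · exact h0
    have h2M : 2 ∣ lev N := by
      unfold lev
      have h3 : 2 ∈ (range (4 * N + 2)).filter Nat.Prime :=
        mem_filter.mpr ⟨mem_range.mpr (by omega), Nat.prime_two⟩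
      refine dvd_trans ?_ (dvd_prod_of_mem _ h3)
      exact dvd_pow_self 2 (by omega)
    have hkh : (lev N : ZMod m) * ((m / 2 : ℕ) : ZMod m) = 0 := by
      obtain ⟨c, hc⟩ := h2M
      rw [hc]
      push_cast
      have h5 : (2 : ZMod m) * ((m / 2 : ℕ) : ZMod m) = 0 := by rw [two_mul]; exact hhh
      rw [mul_comm (2 : ZMod m), mul_assoc, h5, mul_zero]
    have hk' : ∀ a ∈ ((m / 2 : ℕ) : ZMod m) ::ₘ s0, (lev N : ZMod m) * a = 0 := by
      intro a ha
      rcases Multiset.mem_cons.mp ha with rfl | ha
      · exact hkh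
      · exact hk a ha
    have hdh : down m (lev N) ((m / 2 : ℕ) : ZMod m) = ((lev N / 2 : ℕ) : ZMod (lev N)) := by
      unfold down
      rw [ZMod.val_natCast, Nat.mod_eq_of_lt (Nat.div_lt_self (NeZero.pos m) (by norm_num))]
      congr 1
      obtain ⟨c, hc⟩ := h2M
      obtain ⟨d, hd⟩ := h2m
      have hmp := NeZero.pos m
      rw [hc, Nat.mul_div_cancel_left _ (by norm_num : 0 < 2), hd,
        Nat.mul_div_cancel_left _ (by norm_num : 0 < 2), mul_right_comm]
      refine Nat.mul_div_cancel_left _ ?_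
      omega
    refine ⟨((lev N / 2 : ℕ) : ZMod (lev N)) ::ₘ s0.map (down m (lev N)), Or.inr ⟨h2m, rfl⟩, ?_,
      ?_, fun A hA => ?_⟩
    · rw [← hdh, ← Multiset.map_cons]
      exact hodge_down hk' h1
    · rw [Multiset.card_cons, Multiset.card_map]
      have h3 : Multiset.card s = Multiset.card s0 + Multiset.card s1 := by
        rw [hs01, Multiset.card_add]
      have h4 := h1.2.1
      rw [Multiset.card_cons] at h4
      have h5 := hs.2.1
      rw [h3] at h5
      have h6 : Multiset.card s1 ≠ 0 := by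
        intro h7
        rw [h7, add_zero] at h5
        exact (Nat.not_even_iff_odd.mpr h5.add_one) h4
      omega
    · rw [← hdh, ← Multiset.map_cons, ← sys_down hA hk', hs01]
      have hAm := hA.adm m (NeZero.pos m)
      have h3 := gen_of_B0 hAm h2
      have hneg : -((m / 2 : ℕ) : ZMod m) = ((m / 2 : ℕ) : ZMod m) :=
        neg_eq_of_add_eq_zero_left hhh
      constructor
      · intro h
        apply cancel_multi hAm s1
        have e1 : s1 + s1.map Neg.neg + ((m / 2 : ℕ) : ZMod m) ::ₘ s0 =
            (s0 + s1) + (((m / 2 : ℕ) : ZMod m) ::ₘ s1).map Neg.neg := by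
          rw [Multiset.map_cons, hneg, Multiset.add_cons, Multiset.add_cons]
          congr 1
          abel
        rw [e1]
        exact hAm.join _ _ h (hAm.neg _ h3)
      · intro h
        apply hAm.cancel ((m / 2 : ℕ) : ZMod m)
        rw [hneg]
        have e1 : ((m / 2 : ℕ) : ZMod m) ::ₘ ((m / 2 : ℕ) : ZMod m) ::ₘ (s0 + s1) =
            ((m / 2 : ℕ) : ZMod m) ::ₘ s0 + ((m / 2 : ℕ) : ZMod m) ::ₘ s1 := by
          rw [Multiset.add_cons, Multiset.cons_add]
        rw [e1]
        exact hAm.join _ _ h h3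

end Sys

end Pool.Agent.Q59.DN
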