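import Pool.Agent.Q59.DN.Desc

/-!
# Relations with a large kernel
-/

namespace Pool.Agent.Q59.DN

open Finset Pool.Agent.H916R2 Pool.Agent.Q59.FS Pool.Agent.Q59.PL

section Pair

variable {m : ℕ} [NeZero m]

/-- `x` is killed by the rational odd distributions which vanish on the orders not divisible by
`T` -/
def H0 (T : ℕ) (x : ZMod m → ℤ) : Prop :=
  ∀ φ : ZMod m → ℚ, OddDist φ → (∀ a, ¬ T ∣ addOrderOf a → φ a = 0) → ∑ a, (x a : ℚ) * φ a = 0

variable {q i R d D D' T : ℕ} [NeZero d] [NeZero D]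

theorem pair_zero (hq : q.Prime) (hR : R * d = m) (h : q ^ i * D = d) (hD' : q * D' = D)
    (hqD' : q ∣ D') (hT : T ∣ D) {x : ZMod m → ℤ} (hx : H0 T x)
    (htop : ∀ a, od x a ≠ 0 → D ∣ addOrderOf a → addOrderOf a = d) {g : (ZMod d)ˣ → ℤ}
    (h1 : ∀ κ ∈ KL d (q ^ i), ∀ u, g (u * κ) = g u)
    (h2 : ∀ u, ∑ κ ∈ KF (KL d (q ^ (i + 1))), g (u * κ) = 0)
    (h3 : ∀ ℓ : ℕ, ℓ.Prime → ℓ ≠ q → ℓ ∣ d → ∀ u, ∑ κ ∈ KF (KL d ℓ), g (u * κ) = 0) :
    ∑ u : (ZMod d)ˣ, od x (iota R (u : ZMod d)) * g u = 0 := by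
  classical
  have hqD : q ∣ D := Dvd.intro _ hD'
  -- the odd case
  have key : ∀ g : (ZMod d)ˣ → ℤ, (∀ u, g (-u) = - g u) →
      (∀ κ ∈ KL d (q ^ i), ∀ u, g (u * κ) = g u) →
      (∀ u, ∑ κ ∈ KF (KL d (q ^ (i + 1))), g (u * κ) = 0) →
      (∀ ℓ : ℕ, ℓ.Prime → ℓ ≠ q → ℓ ∣ d → ∀ u, ∑ κ ∈ KF (KL d ℓ), g (u * κ) = 0) →
      ∑ u : (ZMod d)ˣ, od x (iota R (u : ZMod d)) * g u = 0 := by
    intro g hodd h1 h2 h3
    obtain ⟨g', hg1, hg2⟩ := exists_desc hq h hD' hqD' h1 h2 h3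
    have hsurj : Function.Surjective (ZMod.unitsMap (Dvd.intro_left (q ^ i) h)) :=
      ZMod.unitsMap_surjective _
    have hodd' : ∀ v, g' (-v) = - g' v := by
      intro v
      obtain ⟨u, rfl⟩ := hsurj v
      have e : - ZMod.unitsMap (Dvd.intro_left (q ^ i) h) u =
          ZMod.unitsMap (Dvd.intro_left (q ^ i) h) (-u) := by
        apply Units.ext
        rw [unitsMap_coe, Units.val_neg, Units.val_neg, map_neg, unitsMap_coe]
      rw [e, hg1, hg1, hodd]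
    have hR' : R * q ^ i * D = m := by rw [mul_assoc, h, hR]
    obtain ⟨φ0, k0, k0'⟩ := base_PD hR' hodd' hg2
    obtain ⟨φ1, k1, _, k1'⟩ := ext_pow k0 hq hqD i
    have hDq : D * q ^ i = d := by rw [mul_comm, h]
    obtain ⟨φ, k2, k2'⟩ := k1.extend (by rw [hDq]; exact Dvd.intro_left R hR)
    have hq0 : ((q : ℚ) ^ i) ≠ 0 := pow_ne_zero _ (by exact_mod_cast hq.ne_zero)
    have hval : ∀ u : (ZMod d)ˣ, φ (iota R (u : ZMod d)) = g u / (q : ℚ) ^ i := by
      intro u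
      have hord := addOrderOf_iota_unit (m := m) hR u
      rw [k2' _ (by
        have := addOrderOf_nsmul_eq_zero (iota R (u : ZMod d) : ZMod m)
        rw [hord, nsmul_eq_mul] at this
        rw [hDq]
        exact this), k1' _ (by rw [hord, hDq]), mul_iota hR h]
      congr 1
      have h4 := k0' (ZMod.unitsMap (Dvd.intro_left (q ^ i) h) u)
      rw [unitsMap_coe, hg1] at h4
      exact h4
    have h5 := hx φ k2.oddDist (fun a ha => by
      by_contra h0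
      exact ha (hT.trans (k2.ord a h0)))
    have h6 : ∑ a, ((od x a : ℤ) : ℚ) * φ a = 0 := by
      have h4 : ∑ a, (x (-a) : ℚ) * φ a = - ∑ a, (x a : ℚ) * φ a := by
        rw [← sum_neg_distrib]
        refine Fintype.sum_equiv (Equiv.neg _) _ _ fun a => ?_
        simp only [Equiv.neg_apply]
        rw [k2.neg]; ring
      unfold od
      push_cast
      simp only [sub_mul]
      rw [sum_sub_distrib, h4, h5]
      ring
    have h7 : ∑ a, ((od x a : ℤ) : ℚ) * φ a =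
        ∑ a ∈ univ.filter (fun a : ZMod m => addOrderOf a = d), ((od x a : ℤ) : ℚ) * φ a := by
      symm
      apply sum_subset (subset_univ _)
      intro a _ ha
      have hne : addOrderOf a ≠ d := fun h => ha (mem_filter.mpr ⟨mem_univ _, h⟩)
      by_cases h5 : φ a = 0
      · rw [h5, mul_zero]
      · by_cases h6 : od x a = 0
        · rw [h6]; simp
        · exfalso
          apply hne
          exact htop a h6 (k2.ord a h5)
    rw [h7, sum_order hR] at h6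
    have h8 : ((∑ u : (ZMod d)ˣ, od x (iota R (u : ZMod d)) * g u : ℤ) : ℚ) = 0 := by
      have h9 : ∀ u : (ZMod d)ˣ, ((od x (iota R (u : ZMod d)) * g u : ℤ) : ℚ) =
          (q : ℚ) ^ i * ((od x (iota R (u : ZMod d)) : ℚ) * φ (iota R (u : ZMod d))) := by
        intro u
        rw [hval]
        push_cast
        field_simp
      rw [Int.cast_sum, sum_congr rfl fun u _ => h9 u, ← mul_sum, h6, mul_zero]
    exact_mod_cast h8
  have hsum : ∀ H : Subgroup (ZMod d)ˣ, (∀ u, ∑ κ ∈ KF H, g (u * κ) = 0) →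
      ∀ u, ∑ κ ∈ KF H, (g (u * κ) - g (-(u * κ))) = 0 := by
    intro H hH u
    rw [sum_sub_distrib, hH u]
    have h4 : ∑ κ ∈ KF H, g (-(u * κ)) = ∑ κ ∈ KF H, g (-u * κ) :=
      sum_congr rfl fun κ _ => by rw [neg_mul]
    rw [h4, hH (-u), sub_zero]
  have h4 := key (fun u => g u - g (-u)) (fun u => by rw [neg_neg]; ring) (by
    intro κ hκ u
    rw [h1 κ hκ, ← neg_mul, h1 κ hκ]) (hsum _ h2) (fun ℓ hℓ hℓq hℓd => hsum _ (h3 ℓ hℓ hℓq hℓd))
  have h5 : ∑ u : (ZMod d)ˣ, od x (iota R (u : ZMod d)) * g (-u) =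
      - ∑ u : (ZMod d)ˣ, od x (iota R (u : ZMod d)) * g u := by
    rw [← sum_neg_distrib]
    refine Fintype.sum_equiv (Equiv.neg _) _ _ fun u => ?_
    simp only [Equiv.neg_apply]
    rw [Units.val_neg, iota_neg hR, od_neg]
    ring
  simp only [mul_sub] at h4
  rw [sum_sub_distrib, h5] at h4
  omega

end Pair

section Sums

variable {G : Type*} [CommGroup G] [Fintype G]

/-- sums over the cosets of a subgroup -/
noncomputable def cs (K : Subgroup G) (b : G → ℤ) : G → ℤ := fun w => ∑ κ ∈ KF K, b (w * κ)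

lemma sum_mem_mul {K : Subgroup G} {κ' : G} (h : κ' ∈ K) (f : G → ℤ) :
    ∑ κ ∈ KF K, f (κ' * κ) = ∑ κ ∈ KF K, f κ := by
  refine sum_bij (fun κ _ => κ' * κ) ?_ ?_ ?_ ?_
  · intro κ hκ
    exact mem_KF.mpr (K.mul_mem h (mem_KF.mp hκ))
  · intro a _ b _ hab
    exact mul_left_cancel hab
  · intro κ hκ
    exact ⟨κ'⁻¹ * κ, mem_KF.mpr (K.mul_mem (K.inv_mem h) (mem_KF.mp hκ)), by
      rw [mul_inv_cancel_left]⟩
  · intro _ _
    rfl

lemma cs_inv {K : Subgroup G} (b : G → ℤ) {κ : G} (hκ : κ ∈ K) (w : G) :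
    cs K b (w * κ) = cs K b w := by
  unfold cs
  have h := sum_mem_mul hκ (fun y => b (w * y))
  rw [← h]
  exact sum_congr rfl fun y _ => by rw [mul_assoc]

lemma cs_cs {K K' : Subgroup G} (hK : K ≤ K') (b : G → ℤ) (w : G) :
    ∑ κ ∈ KF K', cs K b (w * κ) = Nat.card K * cs K' b w := by
  unfold cs
  rw [sum_comm]
  have h1 : ∀ κ' ∈ KF K, ∑ κ ∈ KF K', b (w * κ * κ') = ∑ κ ∈ KF K', b (w * κ) := by
    intro κ' hκ'
    have h := sum_mem_mul (hK (mem_KF.mp hκ')) (fun y => b (w * y))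
    rw [← h]
    refine sum_congr rfl fun y _ => ?_
    rw [mul_assoc, mul_comm y κ']
  rw [sum_congr rfl h1, sum_const, card_KF, nsmul_eq_mul]

lemma cs_zero {K K' : Subgroup G} {b : G → ℤ} (hb : ∀ u, ∑ κ ∈ KF K', b (u * κ) = 0) (w : G) :
    ∑ κ ∈ KF K', cs K b (w * κ) = 0 := by
  unfold cs
  rw [sum_comm]
  refine sum_eq_zero fun κ' _ => ?_
  rw [← hb (w * κ')]
  exact sum_congr rfl fun κ _ => by rw [mul_right_comm]

lemma cs_bot (b : G → ℤ) (w : G) : cs (⊥ : Subgroup G) b w = b w := by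
  unfold cs
  have : KF (⊥ : Subgroup G) = {1} := by
    ext κ
    rw [mem_KF, mem_singleton, Subgroup.mem_bot]
  rw [this, sum_singleton, mul_one]

end Sums

section Chain

variable {m : ℕ} [NeZero m] {q R d n k T : ℕ} [NeZero d]

/-- **The relations.** -/
theorem big_rel (hq : q.Prime) (hR : R * d = m) {d2 : ℕ} (hd : q ^ n * d2 = d)
    (hc : q.Coprime d2) {e : ℕ} (he : 1 ≤ e) (hek : e + k = n) {x : ZMod m → ℤ}
    (hx : H0 (q ^ (e + 1)) x) (hpow : ∀ a, od x a ≠ 0 → q ^ n ∣ addOrderOf a)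
    (htop : ∀ a, od x a ≠ 0 → d ∣ addOrderOf a → addOrderOf a = d) {b : (ZMod d)ˣ → ℤ}
    (hb : ∀ ℓ : ℕ, ℓ.Prime → ℓ ≠ q → ℓ ∣ d → ∀ u, ∑ κ ∈ KF (KL d ℓ), b (u * κ) = 0)
    (hb' : ∀ u, ∑ κ ∈ KF (KL d (q ^ k)), b (u * κ) = 0) :
    ∑ u : (ZMod d)ˣ, od x (iota R (u : ZMod d)) * b u = 0 := by
  classical
  have hd20 : 0 < d2 := Nat.pos_of_ne_zero (by
    rintro rfl
    rw [mul_zero] at hd
    exact NeZero.ne d hd.symm)
  -- the step
  have step : ∀ i, i < k → ∑ u : (ZMod d)ˣ, od x (iota R (u : ZMod d)) *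
      cs (KL d (q ^ (i + 1))) b u = q * ∑ u : (ZMod d)ˣ, od x (iota R (u : ZMod d)) *
        cs (KL d (q ^ i)) b u := by
    intro i hi
    obtain ⟨j, hj⟩ : ∃ j, e + j + 1 + i = n := ⟨k - i - 1, by omega⟩
    have hD : q ^ i * (q ^ (e + j + 1) * d2) = d := by
      rw [← mul_assoc, ← pow_add, ← hd, ← hj, add_comm i]
    have hD' : q * (q ^ (e + j) * d2) = q ^ (e + j + 1) * d2 := by rw [pow_succ]; ring
    have hqD' : q ∣ q ^ (e + j) * d2 := Dvd.dvd.mul_right (dvd_pow_self q (by omega)) _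
    have hT : q ^ (e + 1) ∣ q ^ (e + j + 1) * d2 :=
      Dvd.dvd.mul_right (pow_dvd_pow q (by omega)) _
    have : NeZero (q ^ (e + j + 1) * d2) := ⟨(Nat.mul_pos (pow_pos hq.pos _) hd20).ne'⟩
    have hqDD : q ∣ q ^ (e + j + 1) * d2 := Dvd.intro _ hD'
    have hle : KL d (q ^ i) ≤ KL d (q ^ (i + 1)) := by
      rw [pow_succ]; exact KL_le_mul d _ _
    have hci : Nat.card (KL d (q ^ i)) = q ^ i := card_KL_pow hq hD hqDD
    have hD2 : q ^ (i + 1) * (q ^ (e + j) * d2) = d := by rw [← hD, ← hD', pow_succ]; ring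
    have hci1 : Nat.card (KL d (q ^ (i + 1))) = q ^ (i + 1) := card_KL_pow hq hD2 hqD'
    have h0 := pair_zero hq hR hD hD' hqD' hT hx (fun a ha hDa => by
      refine htop a ha ?_
      rw [← hd]
      refine Nat.Coprime.mul_dvd_of_dvd_of_dvd (Nat.Coprime.pow_left n hc) (hpow a ha) ?_
      exact (Dvd.intro_left _ rfl).trans hDa)
      (g := fun u => q * cs (KL d (q ^ i)) b u - cs (KL d (q ^ (i + 1))) b u) (by
      intro κ hκ u
      rw [cs_inv b hκ, cs_inv b (hle hκ)]) (by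
      intro u
      rw [sum_sub_distrib, ← mul_sum, cs_cs hle, cs_cs le_rfl, hci, hci1]
      push_cast
      ring) (by
      intro ℓ hℓ hℓq hℓd u
      rw [sum_sub_distrib, ← mul_sum, cs_zero (hb ℓ hℓ hℓq hℓd), cs_zero (hb ℓ hℓ hℓq hℓd)]
      ring)
    simp only [mul_sub] at h0
    rw [sum_sub_distrib, sub_eq_zero] at h0
    rw [← h0, mul_sum]
    exact sum_congr rfl fun u _ => by ring
  have hall : ∀ i, i ≤ k → ∑ u : (ZMod d)ˣ, od x (iota R (u : ZMod d)) *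
      cs (KL d (q ^ i)) b u = (q : ℤ) ^ i * ∑ u : (ZMod d)ˣ, od x (iota R (u : ZMod d)) * b u := by
    intro i
    induction i with
    | zero =>
      intro _
      rw [pow_zero, pow_zero, one_mul, KL_one]
      exact sum_congr rfl fun u _ => by rw [cs_bot]
    | succ i ih =>
      intro hi
      rw [step i (by omega), ih (by omega), pow_succ]
      ring
  have h1 := hall k le_rfl
  have h2 : ∑ u : (ZMod d)ˣ, od x (iota R (u : ZMod d)) * cs (KL d (q ^ k)) b u = 0 := by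
    refine sum_eq_zero fun u _ => ?_
    unfold cs
    rw [hb' u, mul_zero]
  rw [h2] at h1
  have h3 : ((q : ℤ) ^ k) ≠ 0 := pow_ne_zero _ (by exact_mod_cast hq.ne_zero)
  exact (mul_eq_zero.mp h1.symm).resolve_left h3

end Chain

end Pool.Agent.Q59.DN
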