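import Pool.Agent.Q59.DN.Peel
import Pool.Agent.Q59.PL.Uni

/-!
# The entries of bounded order of a Hodge character
-/

namespace Pool.Agent.Q59.DN

open Finset Pool.Agent.H916R2 Pool.Agent.Q59.FS Pool.Agent.Q59.PL

section Same

variable {m : ℕ}

/-- equality of the classes of two multisets -/
def Same (s t : Multiset (ZMod m)) : Prop :=
  ∀ (Q : Type) [AddCommGroup Q] (c : ZMod m → Q), OddDist c → (s.map c).sum = (t.map c).sum

lemma Same.refl (s : Multiset (ZMod m)) : Same s s := fun _ _ _ _ => rfl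

lemma Same.trans {s t u : Multiset (ZMod m)} (h : Same s t) (h' : Same t u) : Same s u :=
  fun Q _ c hc => (h Q c hc).trans (h' Q c hc)

/-- the relation of a multiset -/
def RelM [NeZero m] (s : Multiset (ZMod m)) : Prop := Rel (fun a : ZMod m => ((s.count a : ℕ) : ℤ))

lemma Same.rel [NeZero m] {s t : Multiset (ZMod m)} (h : Same s t) (hs : RelM s) : RelM t := by
  refine rel_of_eq hs fun Q _ c hc => ?_
  rw [sum_count, sum_count]
  exact (h Q c hc).symm

end Same

section Select

/-- the choice of the threshold -/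
lemma exists_threshold {q n E N : ℕ} (hq : 2 ≤ q) (hE : 4 * N < (q - 1) * E) (hEn : E < n)
    {c : ℕ → ℤ} (hc : ∀ t, 0 ≤ c t) (hN : ∀ k, k < n → ∑ j ∈ range k, c (n - j) ≤ N) :
    ∃ k, n - E ≤ k ∧ k < n ∧ 4 * ∑ j ∈ range k, (q : ℤ) ^ j * c (n - j) < (q : ℤ) ^ k := by
  by_contra hcon
  push Not at hcon
  have hq' : (2 : ℤ) ≤ q := by exact_mod_cast hq
  have key : ∀ r : ℕ, r ≤ E → ((q : ℤ) - 1) * r * (q : ℤ) ^ (n - E - 1 + r) +
      4 * ∑ j ∈ range (n - E - 1 + r), (q : ℤ) ^ j * c (n - j) ≤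
        4 * (q : ℤ) ^ (n - E - 1 + r) * ∑ j ∈ range (n - E - 1 + r), c (n - j) := by
    intro r
    induction r with
    | zero =>
      intro _
      rw [Nat.cast_zero, mul_zero, zero_mul, zero_add, mul_assoc, mul_sum (range _) _ ((q : ℤ) ^ _)]
      refine mul_le_mul_of_nonneg_left (sum_le_sum fun j hj => ?_) (by norm_num)
      refine mul_le_mul_of_nonneg_right ?_ (hc _)
      exact pow_le_pow_right₀ (by linarith) (mem_range.mp hj).le
    | succ r ih =>
      intro hr
      have h1 := ih (by omega)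
      have h2 := hcon (n - E - 1 + (r + 1)) (by omega) (by omega)
      rw [← add_assoc] at h2 ⊢
      rw [sum_range_succ] at h2 ⊢
      rw [sum_range_succ (fun j => c (n - j))]
      set i := n - E - 1 + r with hi
      set A := ∑ j ∈ range i, (q : ℤ) ^ j * c (n - j) with hA
      set S := ∑ j ∈ range i, c (n - j) with hS
      set P := (q : ℤ) ^ i with hP
      rw [pow_succ] at h2 ⊢
      rw [← hP] at h2 ⊢
      have h3 := mul_le_mul_of_nonneg_left h1 (by linarith : (0 : ℤ) ≤ q)
      have h4 := mul_le_mul_of_nonneg_left h2 (by linarith : (0 : ℤ) ≤ (q : ℤ) - 1)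
      push_cast
      nlinarith
  have h1 := key E le_rfl
  have h2 : n - E - 1 + E = n - 1 := by omega
  rw [h2] at h1
  have h3 := hN (n - 1) (by omega)
  have h4 : 0 ≤ ∑ j ∈ range (n - 1), (q : ℤ) ^ j * c (n - j) :=
    sum_nonneg fun j _ => mul_nonneg (by positivity) (hc _)
  have hP : (0 : ℤ) < (q : ℤ) ^ (n - 1) := by positivity
  have h5 : ((q : ℤ) - 1) * E * (q : ℤ) ^ (n - 1) ≤ 4 * N * (q : ℤ) ^ (n - 1) := by
    have := mul_le_mul_of_nonneg_left h3 (by positivity : (0 : ℤ) ≤ 4 * (q : ℤ) ^ (n - 1))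
    nlinarith
  have h6 := le_of_mul_le_mul_right h5 hP
  have h7 : ((q - 1 : ℕ) : ℤ) = (q : ℤ) - 1 := by
    rw [Nat.cast_sub (by omega)]
    simp
  have h8 : ((4 * N : ℕ) : ℤ) < (((q - 1) * E : ℕ) : ℤ) := by exact_mod_cast hE
  push_cast at h8
  rw [h7] at h8
  linarith

end Select

section Cut

variable {m : ℕ} [NeZero m] {q n : ℕ}

open scoped Classical in
lemma nq_lf_le (hq : q.Prime) (hn : q ^ n ∣ m) {k : ℕ} (hk : k < n) (s : Multiset (ZMod m)) :
    nq q (lf q n k (fun a : ZMod m => ((s.count a : ℕ) : ℤ))) ≤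
      4 * ∑ j ∈ range k, (q : ℤ) ^ j * ∑ a : ZMod m, (if ex q (n - j) a then
        ((s.count a : ℕ) : ℤ) else 0) := by
  set x : ZMod m → ℤ := fun a => ((s.count a : ℕ) : ℤ) with hx
  have hx0 : ∀ a, 0 ≤ x a := fun a => by rw [hx]; positivity
  have hy0 : ∀ a, 0 ≤ lf q n k x a := by
    intro a
    unfold lf
    split_ifs
    · exact sum_nonneg fun _ _ => hx0 _
    · exact le_rfl
  have h1 : ∑ a, lf q n k x a = ∑ j ∈ range k, (q : ℤ) ^ j * ∑ a : ZMod m,
      (if ex q (n - j) a then x a else 0) := by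
    have h2 : ∀ b, lf q n k x b =
        ∑ j ∈ range k, (if ex q n b then x (((q ^ j : ℕ) : ZMod m) * b) else 0) := by
      intro b
      unfold lf
      split_ifs with h
      · rfl
      · simp
    rw [sum_congr rfl fun b _ => h2 b, sum_comm]
    refine sum_congr rfl fun j hj => ?_
    have := mem_range.mp hj
    exact sum_shift_one hq hn j (n - j) (by omega) (by omega) x
  rw [← h1]
  have h3 : ∑ a, lf q n k x (-a) = ∑ a, lf q n k x a :=
    Fintype.sum_equiv (Equiv.neg _) _ _ fun a => rfl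
  calc nq q (lf q n k x) ≤ ∑ a, 2 * |od (lf q n k x) a| := by
        unfold nq
        refine (sum_le_sum fun a _ => mul_le_mul_of_nonneg_right (wo_le _) (abs_nonneg _)).trans ?_
        exact sum_le_sum_of_subset_of_nonneg (filter_subset _ _)
          fun a _ _ => mul_nonneg (by norm_num) (abs_nonneg _)
    _ ≤ ∑ a, 2 * (lf q n k x a + lf q n k x (-a)) := by
        refine sum_le_sum fun a _ => mul_le_mul_of_nonneg_left ?_ (by norm_num)
        unfold od
        have := abs_sub (lf q n k x a) (lf q n k x (-a))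
        rwa [abs_of_nonneg (hy0 a), abs_of_nonneg (hy0 (-a))] at this
    _ = 4 * ∑ a, lf q n k x a := by
        rw [← mul_sum, sum_add_distrib, h3]
        ring

lemma sum_filter_count (s : Multiset (ZMod m)) (P : ZMod m → Prop) [DecidablePred P] {Q : Type}
    [AddCommGroup Q] (c : ZMod m → Q) : ((s.filter P).map c).sum =
      ∑ a, (if P a then ((s.count a : ℕ) : ℤ) else 0) • c a := by
  rw [← sum_count]
  refine sum_congr rfl fun a _ => ?_
  congr 1
  rw [Multiset.count_filter]
  split_ifs <;> simp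

open scoped Classical in
/-- small primes -/
theorem cut_small (hq : q.Prime) {E N : ℕ} (hE : 4 * N < (q - 1) * E) {s : Multiset (ZMod m)}
    (hs : RelM s) (hcard : Multiset.card s ≤ N) :
    ∃ e ≤ E, Same s (s.filter fun a => ¬ q ^ (e + 1) ∣ addOrderOf a) := by
  obtain ⟨n, m', hm', hmn⟩ := Nat.exists_eq_pow_mul_and_not_dvd (NeZero.ne m) q hq.ne_one
  have hn : q ^ n ∣ m := by rw [hmn]; exact Dvd.intro _ rfl
  have hm : ¬ q ^ (n + 1) ∣ m := by
    rw [hmn, pow_succ]
    intro h
    exact hm' (Nat.dvd_of_mul_dvd_mul_left (pow_pos hq.pos n) h)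
  by_cases hnE : n ≤ E
  · refine ⟨n, hnE, ?_⟩
    rw [Multiset.filter_eq_self.mpr fun a _ => not_dvd_order hm a]
    exact Same.refl s
  · push Not at hnE
    obtain ⟨k, h1, h2, h3⟩ := exists_threshold hq.two_le hE hnE
      (c := fun t => ∑ a : ZMod m, (if ex q t a then ((s.count a : ℕ) : ℤ) else 0))
      (fun t => sum_nonneg fun a _ => by split_ifs <;> positivity) (fun k hk => by
        rw [sum_comm]
        have h4 : (Multiset.card s : ℤ) = ∑ a : ZMod m, ((s.count a : ℕ) : ℤ) := by
          have := sum_count s (fun _ : ZMod m => (1 : ℤ))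
          simp only [smul_eq_mul, mul_one] at this
          rw [this]
          simp
        have h5 : (Multiset.card s : ℤ) ≤ N := by exact_mod_cast hcard
        refine le_trans ?_ h5
        rw [h4]
        refine sum_le_sum fun a _ => ?_
        have h6 := sum_ex (not_dvd_order hm a) k (n - k) (by omega)
        have h7 : ∑ j ∈ range k, (if ex q (n - j) a then ((s.count a : ℕ) : ℤ) else 0) =
            (∑ j ∈ range k, (if ex q (n - j) a then (1 : ℤ) else 0)) * ((s.count a : ℕ) : ℤ) := by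
          rw [sum_mul]
          refine sum_congr rfl fun j _ => ?_
          split_ifs
          · rw [one_mul]
          · rw [zero_mul]
        rw [h7, h6]
        split_ifs
        · rw [one_mul]
        · rw [zero_mul]
          positivity)
    refine ⟨n - k, by omega, fun Q _ c hc => ?_⟩
    have h4 := far_zero hq hn hm (e := n - k) (k := k) (by omega) (by omega) (by omega) hs
      (lt_of_le_of_lt (nq_lf_le hq hn h2 s) h3) hc
    rw [← sum_count s c, sum_filter_count, ← sub_eq_zero, ← sum_sub_distrib, ← h4]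
    refine sum_congr rfl fun a _ => ?_
    rw [← sub_smul]
    congr 1
    by_cases h5 : q ^ (n - k + 1) ∣ addOrderOf a
    · rw [if_neg (not_not.mpr h5), if_pos h5, sub_zero]
    · rw [if_pos h5, if_neg h5, sub_self]

open scoped Classical in
/-- large primes -/
theorem cut_large (hq : q.Prime) {N : ℕ} (hN : 4 * N + 1 < q) {s : Multiset (ZMod m)}
    (hs : RelM s) (hcard : Multiset.card s ≤ N) :
    Same s (s.filter fun a => ¬ q ^ (0 + 1) ∣ addOrderOf a) := by
  have hbound : nq q (fun a : ZMod m => ((s.count a : ℕ) : ℤ)) < (q : ℤ) - 1 := by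
    have h1 := nq_count_le q s
    have h2 := wq_le_two q s
    have h3 : (Multiset.card s : ℤ) ≤ N := by exact_mod_cast hcard
    have h4 : ((4 * N + 1 : ℕ) : ℤ) < q := by exact_mod_cast hN
    push_cast at h4
    linarith
  by_cases hq2 : q = 2
  · subst hq2
    have hN0 : N = 0 := by omega
    subst hN0
    rw [Multiset.card_eq_zero.mp (Nat.le_zero.mp hcard), Multiset.filter_zero]
    exact Same.refl 0
  obtain ⟨y, h1, h2, h3⟩ := peel_simple hq hq2 hs hbound
  intro Q _ c hc
  rw [← sum_count s c, ← h1 Q c (Part.of_oddDist q hc), ← sum_count]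
  refine od_kill' (fun a => ?_) hc.neg hc.half
  unfold od
  simp only [Multiset.count_filter, addOrderOf_neg, zero_add, pow_one]
  by_cases h4 : q ∣ addOrderOf a
  · have h5 := h3 a h4
    unfold od at h5
    rw [if_neg (not_not.mpr h4), if_neg (not_not.mpr h4), h5]
    simp
  · have h5 := h2 a h4
    unfold od at h5
    rw [if_pos h4, if_pos h4, h5]

/-- the exponents -/
def tt (N p : ℕ) : ℕ := if p ≤ 4 * N + 1 then 4 * N / (p - 1) + 1 else 0

lemma lt_tt {N p : ℕ} (hp : p.Prime) (h : p ≤ 4 * N + 1) : 4 * N < (p - 1) * tt N p := by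
  unfold tt
  rw [if_pos h, mul_add, mul_one]
  have h1 := Nat.div_add_mod (4 * N) (p - 1)
  have h2 := Nat.mod_lt (4 * N) (show 0 < p - 1 by have := hp.two_le; omega)
  omega

/-- all primes of a list -/
theorem cut_list {N : ℕ} : ∀ L : List ℕ, (∀ p ∈ L, p.Prime) → ∀ s : Multiset (ZMod m), RelM s →
    Multiset.card s ≤ N → ∃ s' ≤ s, (∀ a ∈ s', ∀ p ∈ L, ¬ p ^ (tt N p + 1) ∣ addOrderOf a) ∧
      Same s s' := by
  classical
  intro L
  induction L with
  | nil => exact fun _ s _ _ => ⟨s, le_rfl, fun _ _ p hp => absurd hp List.not_mem_nil, Same.refl s⟩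
  | cons p L ih =>
    intro hL s hs hcard
    have hp := hL p (List.mem_cons_self ..)
    obtain ⟨e, he, hsame⟩ : ∃ e ≤ tt N p, Same s (s.filter fun a => ¬ p ^ (e + 1) ∣ addOrderOf a) := by
      by_cases h : p ≤ 4 * N + 1
      · exact cut_small hp (lt_tt hp h) hs hcard
      · refine ⟨0, Nat.zero_le _, cut_large hp (by omega) hs hcard⟩
    have hle : (s.filter fun a => ¬ p ^ (e + 1) ∣ addOrderOf a) ≤ s := Multiset.filter_le _ _
    obtain ⟨s', h1, h2, h3⟩ := ih (fun r hr => hL r (List.mem_cons_of_mem _ hr)) _ (hsame.rel hs)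
      ((Multiset.card_le_card hle).trans hcard)
    refine ⟨s', h1.trans hle, fun a ha r hr => ?_, hsame.trans h3⟩
    rcases List.mem_cons.mp hr with rfl | hr
    · have h4 := (Multiset.mem_filter.mp (Multiset.mem_of_le h1 ha)).2
      intro h5
      exact h4 ((pow_dvd_pow r (by omega)).trans h5)
    · exact h2 a ha r hr

/-- the level -/
def lev (N : ℕ) : ℕ := ∏ p ∈ (range (4 * N + 2)).filter Nat.Prime, p ^ (4 * N / (p - 1) + 1)

lemma lev_pos (N : ℕ) : 0 < lev N :=
  prod_pos fun p hp => pow_pos (mem_filter.mp hp).2.pos _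

/-- **The structure theorem.** -/
theorem structure_thm {N : ℕ} {s : Multiset (ZMod m)} (hs : RelM s) (hcard : Multiset.card s ≤ N) :
    ∃ s' ≤ s, (∀ a ∈ s', addOrderOf a ∣ lev N) ∧ Same s s' := by
  obtain ⟨s', h1, h2, h3⟩ := cut_list m.primeFactorsList
    (fun p hp => Nat.prime_of_mem_primeFactorsList hp) s hs hcard
  refine ⟨s', h1, fun a ha => ?_, h3⟩
  rw [Nat.dvd_iff_prime_pow_dvd_dvd]
  intro p k hp hk
  rcases Nat.eq_zero_or_pos k with rfl | hk0
  · simp
  have hpm : p ∈ m.primeFactorsList := by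
    rw [Nat.mem_primeFactorsList (NeZero.ne m)]
    refine ⟨hp, ((dvd_pow_self p (by omega)).trans hk).trans ?_⟩
    have := addOrderOf_dvd_card (x := a)
    rwa [ZMod.card] at this
  have h4 := h2 a ha p hpm
  have h5 : k ≤ tt N p := by
    by_contra hcon
    exact h4 ((pow_dvd_pow p (by omega)).trans hk)
  by_cases h6 : p ≤ 4 * N + 1
  · unfold tt at h5
    rw [if_pos h6] at h5
    refine (pow_dvd_pow p h5).trans ?_
    exact dvd_prod_of_mem (fun r => r ^ (4 * N / (r - 1) + 1))
      (mem_filter.mpr ⟨mem_range.mpr (by omega), hp⟩)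
  · unfold tt at h5
    rw [if_neg h6] at h5
    omega

end Cut

end Pool.Agent.Q59.DN
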