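import Pool.Agent.Q59.DN.Ext

/-!
# Functions on unit groups which come from lower levels
-/

namespace Pool.Agent.Q59.DN

open Finset Pool.Agent.H916R2 Pool.Agent.Q59.FS Pool.Agent.Q59.PL

section Grp

variable {G G' : Type*} [CommGroup G] [Fintype G] [CommGroup G'] [Fintype G']

/-- sums over subgroups and homomorphisms -/
lemma sum_KF_map (π : G →* G') (H : Subgroup G) (f : G' → ℤ) :
    ∑ κ ∈ KF H, f (π κ) = Nat.card (H ⊓ π.ker : Subgroup G) * ∑ κ ∈ KF (H.map π), f κ := by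
  classical
  have h1 : ∀ κ ∈ KF H, π κ ∈ KF (H.map π) := fun κ hκ =>
    mem_KF.mpr (Subgroup.mem_map_of_mem π (mem_KF.mp hκ))
  rw [← sum_fiberwise_of_maps_to h1, mul_sum]
  refine sum_congr rfl fun y hy => ?_
  obtain ⟨κ0, hκ0, rfl⟩ := Subgroup.mem_map.mp (mem_KF.mp hy)
  have h2 : ∀ κ ∈ (KF H).filter (fun κ => π κ = π κ0), f (π κ) = f (π κ0) := fun κ hκ => by
    rw [(mem_filter.mp hκ).2]
  rw [sum_congr rfl h2, sum_const, nsmul_eq_mul]
  congr 1
  rw [← card_KF]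
  norm_cast
  symm
  refine card_bij (fun κ _ => κ0 * κ) ?_ ?_ ?_
  · intro κ hκ
    have h3 := mem_KF.mp hκ
    refine mem_filter.mpr ⟨mem_KF.mpr (H.mul_mem hκ0 h3.1), ?_⟩
    rw [map_mul, MonoidHom.mem_ker.mp h3.2, mul_one]
  · intro a _ b _ h
    exact mul_left_cancel h
  · intro κ hκ
    obtain ⟨h3, h4⟩ := mem_filter.mp hκ
    refine ⟨κ0⁻¹ * κ, mem_KF.mpr ⟨H.mul_mem (H.inv_mem hκ0) (mem_KF.mp h3), ?_⟩, by
      rw [mul_inv_cancel_left]⟩
    change π (κ0⁻¹ * κ) = 1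
    rw [map_mul, map_inv, h4, inv_mul_cancel]

end Grp

section Card

variable {q d D i : ℕ}

lemma totient_pow_mul {q D : ℕ} (hq : q.Prime) (hD : q ∣ D) (i : ℕ) :
    Nat.totient (q ^ i * D) = q ^ i * Nat.totient D := by
  induction i with
  | zero => simp
  | succ i ih =>
    have h1 : q ^ (i + 1) * D = q * (q ^ i * D) := by rw [pow_succ]; ring
    rw [h1, Nat.totient_mul_of_prime_of_dvd hq (Dvd.dvd.mul_left hD _), ih, pow_succ]
    ring

lemma card_KL_pow [NeZero d] (hq : q.Prime) (h : q ^ i * D = d) (hD : q ∣ D) :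
    Nat.card (KL d (q ^ i)) = q ^ i := by
  rw [KL_eq_KK (pow_pos hq.pos i) h]
  have h1 := card_KK h
  have h3 : 0 < D := Nat.pos_of_ne_zero (by rintro rfl; rw [mul_zero] at h; exact NeZero.ne d h.symm)
  have h2 : Nat.totient d = q ^ i * Nat.totient D := by rw [← totient_pow_mul hq hD, h]
  rw [h2] at h1
  exact Nat.eq_of_mul_eq_mul_right (Nat.totient_pos.mpr h3) h1

lemma map_card {G G' : Type*} [Group G] [Finite G] [Group G'] (π : G →* G') (H : Subgroup G) :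
    Nat.card (H ⊓ π.ker : Subgroup G) * Nat.card (H.map π) = Nat.card H := by
  have h1 := Subgroup.card_eq_card_quotient_mul_card_subgroup ((π.comp H.subtype).ker)
  have h2 : Nat.card (H ⧸ (π.comp H.subtype).ker) = Nat.card (H.map π) := by
    have h3 := Nat.card_congr (QuotientGroup.quotientKerEquivRange (π.comp H.subtype)).toEquiv
    rw [h3]
    congr 1
    rw [MonoidHom.range_eq_map, ← Subgroup.map_map]
    simp
  have h4 : Nat.card (π.comp H.subtype).ker = Nat.card (H ⊓ π.ker : Subgroup G) := by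
    have h5 : ((π.comp H.subtype).ker).map H.subtype = H ⊓ π.ker := by
      ext x
      simp only [Subgroup.mem_map, MonoidHom.mem_ker, MonoidHom.comp_apply, Subgroup.coe_subtype,
        Subgroup.mem_inf]
      constructor
      · rintro ⟨y, hy, rfl⟩
        exact ⟨y.2, hy⟩
      · rintro ⟨h6, h7⟩
        exact ⟨⟨x, h6⟩, h7, rfl⟩
    rw [← h5, Subgroup.card_map_of_injective H.subtype_injective]
  rw [h2, h4] at h1
  rw [h1, mul_comm]

end Card

section Map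

variable {q d D i : ℕ} [NeZero d] [NeZero D]

/-- the image of a kernel, other primes -/
lemma map_KL (hq : q.Prime) (h : q ^ i * D = d) {ℓ : ℕ} (hℓ : ℓ.Prime) (hℓq : ℓ ≠ q)
    (hℓd : ℓ ∣ d) : (KL d ℓ).map (ZMod.unitsMap (Dvd.intro_left (q ^ i) h)) = KL D ℓ := by
  have hcop : ℓ.Coprime (q ^ i) := Nat.Coprime.pow_right i ((Nat.coprime_primes hℓ hq).mpr hℓq)
  have hℓD : ℓ ∣ D := by
    rw [← h] at hℓd
    exact hcop.dvd_of_dvd_mul_left hℓd
  obtain ⟨D', hD'⟩ := hℓD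
  have hd' : ℓ * (q ^ i * D') = d := by rw [← h, hD']; ring
  apply Subgroup.eq_of_le_of_card_ge
  · rintro _ ⟨u, hu, rfl⟩
    have h1 : (ℓ : ZMod d) * (u : ZMod d) = ℓ := hu
    rw [mem_KL, unitsMap_coe]
    have h2 := congrArg (ZMod.castHom (Dvd.intro_left (q ^ i) h) (ZMod D)) h1
    rwa [map_mul, map_natCast] at h2
  · have h1 := map_card (ZMod.unitsMap (Dvd.intro_left (q ^ i) h)) (KL d ℓ)
    have h2 : KL d ℓ ⊓ (ZMod.unitsMap (Dvd.intro_left (q ^ i) h)).ker = ⊥ := by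
      have h3 : (ZMod.unitsMap (Dvd.intro_left (q ^ i) h)).ker = KL d (q ^ i) :=
        (KL_eq_KK (pow_pos hq.pos i) h).symm
      rw [h3]
      exact KL_inf hcop
    rw [h2, Subgroup.card_bot, one_mul] at h1
    rw [h1]
    apply le_of_eq
    rw [KL_eq_KK hℓ.pos hD'.symm, KL_eq_KK hℓ.pos hd']
    by_cases h4 : ℓ ∣ D'
    · rw [card_KK_dvd hℓ hD'.symm h4, card_KK_dvd hℓ hd' (Dvd.dvd.mul_left h4 _)]
    · rw [card_KK_not_dvd hℓ hD'.symm h4, card_KK_not_dvd hℓ hd' (fun h5 => h4 (by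
        exact hcop.dvd_of_dvd_mul_left h5))]

/-- the image of a kernel, the prime itself -/
lemma map_KL_self (hq : q.Prime) (h : q ^ i * D = d) {D' : ℕ} (hD' : q * D' = D) (hqD' : q ∣ D') :
    (KL d (q ^ (i + 1))).map (ZMod.unitsMap (Dvd.intro_left (q ^ i) h)) = KL D q := by
  have hqD : q ∣ D := Dvd.intro _ hD'
  apply Subgroup.eq_of_le_of_card_ge
  · rintro _ ⟨u, hu, rfl⟩
    have hd' : q ^ (i + 1) * D' = d := by rw [← h, ← hD', pow_succ]; ring
    have h1 : u ∈ KK hd' := by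
      rw [← KL_eq_KK (pow_pos hq.pos _) hd']
      exact hu
    rw [KL_eq_KK hq.pos hD', mem_KK]
    rw [mem_KK] at h1
    rw [← h1]
    apply Units.ext
    simp only [unitsMap_coe]
    have h2 := ZMod.castHom_comp (Dvd.intro_left q hD') (Dvd.intro_left (q ^ i) h)
    exact RingHom.congr_fun h2 (u : ZMod d)
  · have h1 := map_card (ZMod.unitsMap (Dvd.intro_left (q ^ i) h)) (KL d (q ^ (i + 1)))
    have h2 : KL d (q ^ (i + 1)) ⊓ (ZMod.unitsMap (Dvd.intro_left (q ^ i) h)).ker = KL d (q ^ i) := by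
      have h3 : (ZMod.unitsMap (Dvd.intro_left (q ^ i) h)).ker = KL d (q ^ i) :=
        (KL_eq_KK (pow_pos hq.pos i) h).symm
      rw [h3]
      apply inf_eq_right.mpr
      rw [pow_succ]
      exact KL_le_mul d _ _
    have hd' : q ^ (i + 1) * D' = d := by rw [← h, ← hD', pow_succ]; ring
    have h6 := card_KL_pow hq hd' hqD'
    rw [h2, card_KL_pow hq h hqD, h6] at h1
    have h5 := Nat.eq_of_mul_eq_mul_left (pow_pos hq.pos i) (h1.trans (pow_succ q i))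
    rw [h5]
    apply le_of_eq
    rw [KL_eq_KK hq.pos hD', card_KK_dvd hq hD' hqD']

/-- **Descent.** -/
theorem exists_desc (hq : q.Prime) (h : q ^ i * D = d) {D' : ℕ} (hD' : q * D' = D) (hqD' : q ∣ D')
    {g : (ZMod d)ˣ → ℤ} (h1 : ∀ κ ∈ KL d (q ^ i), ∀ u, g (u * κ) = g u)
    (h2 : ∀ u, ∑ κ ∈ KF (KL d (q ^ (i + 1))), g (u * κ) = 0)
    (h3 : ∀ ℓ : ℕ, ℓ.Prime → ℓ ≠ q → ℓ ∣ d → ∀ u, ∑ κ ∈ KF (KL d ℓ), g (u * κ) = 0) :
    ∃ g' : (ZMod D)ˣ → ℤ, (∀ u, g' (ZMod.unitsMap (Dvd.intro_left (q ^ i) h) u) = g u) ∧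
      ∀ ℓ : ℕ, ℓ.Prime → ℓ ∣ D → ∀ v, ∑ κ ∈ KF (KL D ℓ), g' (v * κ) = 0 := by
  classical
  have hsurj : Function.Surjective (ZMod.unitsMap (Dvd.intro_left (q ^ i) h)) :=
    ZMod.unitsMap_surjective _
  set π := ZMod.unitsMap (Dvd.intro_left (q ^ i) h) with hπ
  have hker : π.ker = KL d (q ^ i) := (KL_eq_KK (pow_pos hq.pos i) h).symm
  have hval : ∀ u, g (Function.surjInv hsurj (π u)) = g u := by
    intro u
    have h4 : u⁻¹ * Function.surjInv hsurj (π u) ∈ KL d (q ^ i) := by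
      rw [← hker, MonoidHom.mem_ker, map_mul, map_inv, Function.surjInv_eq hsurj, inv_mul_cancel]
    have h5 := h1 _ h4 u
    rw [mul_inv_cancel_left] at h5
    exact h5
  have hqD : q ∣ D := Dvd.intro _ hD'
  refine ⟨fun v => g (Function.surjInv hsurj v), hval, fun ℓ hℓ hℓD v => ?_⟩
  obtain ⟨u, rfl⟩ := hsurj v
  have key : ∀ H : Subgroup (ZMod d)ˣ, ∀ H' : Subgroup (ZMod D)ˣ, H.map π = H' →
      ∑ κ ∈ KF H, g (u * κ) = 0 →
      ∑ κ ∈ KF H', g (Function.surjInv hsurj (π u * κ)) = 0 := by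
    intro H H' hH hsum
    have h4 := sum_KF_map π H (fun y => g (Function.surjInv hsurj (π u * y)))
    rw [hH] at h4
    have h5 : ∑ κ ∈ KF H, g (Function.surjInv hsurj (π u * π κ)) = 0 := by
      rw [← hsum]
      refine sum_congr rfl fun κ _ => ?_
      rw [← map_mul, hval]
    rw [h5] at h4
    have h6 : (Nat.card (H ⊓ π.ker : Subgroup (ZMod d)ˣ) : ℤ) ≠ 0 := by
      have : 0 < Nat.card (H ⊓ π.ker : Subgroup (ZMod d)ˣ) := Nat.card_pos
      exact_mod_cast this.ne'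
    exact (mul_eq_zero.mp h4.symm).resolve_left h6
  by_cases hℓq : ℓ = q
  · subst hℓq
    exact key _ _ (map_KL_self hq h hD' hqD') (h2 u)
  · have hℓd : ℓ ∣ d := by rw [← h]; exact Dvd.dvd.mul_left hℓD _
    exact key _ _ (map_KL hq h hℓ hℓq hℓd) (h3 ℓ hℓ hℓq hℓd u)

end Map

end Pool.Agent.Q59.DN
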