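import Pool.Agent.Q59.PL.Step

/-!
# Extension of odd distributions in the direction of one prime, with the values
-/

namespace Pool.Agent.Q59.DN

open Finset Pool.Agent.H916R2 Pool.Agent.Q59.FS Pool.Agent.Q59.PL

section Ext

variable {m : ℕ} [NeZero m] {M D : ℕ} {φ : ZMod m → ℚ}

/-- extension, first case, with the values -/
lemma ext_dvd_val (h : PD M D φ) {ℓ : ℕ} (hℓ : ℓ.Prime) (hdvd : ℓ ∣ M) :
    ∃ φ' : ZMod m → ℚ, PD (M * ℓ) D φ' ∧ (∀ a, (M : ZMod m) * a = 0 → φ' a = φ a) ∧
      ∀ a, ¬ (M : ZMod m) * a = 0 → ((M * ℓ : ℕ) : ZMod m) * a = 0 →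
        φ' a = φ ((ℓ : ZMod m) * a) / ℓ := by
  classical
  set φ' : ZMod m → ℚ := fun a => if (M : ZMod m) * a = 0 then φ a else
    if ((M * ℓ : ℕ) : ZMod m) * a = 0 then φ ((ℓ : ZMod m) * a) / ℓ else 0 with hφ'
  have v1 : ∀ a, (M : ZMod m) * a = 0 → φ' a = φ a := fun a ha => by
    simp only [hφ']; rw [if_pos ha]
  have v2 : ∀ a, ¬ (M : ZMod m) * a = 0 → ((M * ℓ : ℕ) : ZMod m) * a = 0 →
      φ' a = φ ((ℓ : ZMod m) * a) / ℓ := fun a h1 h2 => by
    simp only [hφ']; rw [if_neg h1, if_pos h2]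
  have v3 : ∀ a, ¬ ((M * ℓ : ℕ) : ZMod m) * a = 0 → φ' a = 0 := fun a h2 => by
    have h1 : ¬ (M : ZMod m) * a = 0 := fun h0 => h2 (by
      push_cast
      linear_combination (ℓ : ZMod m) * h0)
    simp only [hφ']; rw [if_neg h1, if_neg h2]
  have hℓ0 : (ℓ : ℚ) ≠ 0 := by exact_mod_cast hℓ.ne_zero
  refine ⟨φ', ⟨?_, ?_, ?_, ?_⟩, v1, v2⟩
  · intro a
    by_cases h1 : (M : ZMod m) * a = 0
    · rw [v1 a h1, v1 (-a) (by rw [mul_neg, h1, neg_zero]), h.neg]
    · have h1' : ¬ (M : ZMod m) * (-a) = 0 := by rwa [mul_neg, neg_eq_zero]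
      by_cases h2 : ((M * ℓ : ℕ) : ZMod m) * a = 0
      · rw [v2 a h1 h2, v2 (-a) h1' (by rw [mul_neg, h2, neg_zero]), mul_neg, h.neg, neg_div]
      · rw [v3 a h2, v3 (-a) (by rwa [mul_neg, neg_eq_zero]), neg_zero]
  · intro a ha
    by_contra hcon
    exact ha (v3 a hcon)
  · intro a ha
    by_cases h1 : (M : ZMod m) * a = 0
    · rw [v1 a h1] at ha
      exact h.ord a ha
    · by_cases h2 : ((M * ℓ : ℕ) : ZMod m) * a = 0
      · rw [v2 a h1 h2] at ha
        have h3 : φ ((ℓ : ZMod m) * a) ≠ 0 := fun h0 => ha (by rw [h0, zero_div])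
        exact (h.ord _ h3).trans (order_mul_dvd ℓ a)
      · exact absurd (v3 a h2) ha
  · intro p e hp hpe hpM a ha
    have hpM' : p ∣ M := by
      rcases (Nat.Prime.dvd_mul hp).mp hpM with h0 | h0
      · exact h0
      · exact ((Nat.prime_dvd_prime_iff_eq hp hℓ).mp h0) ▸ hdvd
    have hMe : (M : ZMod m) * (e : ZMod m) = 0 := dvd_mul_zero hpe hpM'
    have hshift : ∀ i : ℕ, (M : ZMod m) * (a + (i : ZMod m) * (e : ZMod m)) = (M : ZMod m) * a := by
      intro i
      linear_combination (i : ZMod m) * hMe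
    by_cases h1 : (M : ZMod m) * a = 0
    · rw [v1 ((p : ZMod m) * a) (by linear_combination (p : ZMod m) * h1),
        ← h.dist p e hp hpe hpM' a h1]
      exact sum_congr rfl fun i _ => v1 _ (by rw [hshift, h1])
    · have ht : ∀ i ∈ range p, φ' (a + (i : ZMod m) * (e : ZMod m)) =
          φ ((ℓ : ZMod m) * (a + (i : ZMod m) * (e : ZMod m))) / ℓ := by
        intro i _
        refine v2 _ (by rw [hshift]; exact h1) ?_
        have h0 : ((M * ℓ : ℕ) : ZMod m) * (a + (i : ZMod m) * (e : ZMod m)) =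
            ((M * ℓ : ℕ) : ZMod m) * a := by
          push_cast
          linear_combination ((i : ZMod m) * ℓ) * hMe
        rw [h0, ha]
      rw [sum_congr rfl ht, ← sum_div]
      have hMℓa : (M : ZMod m) * ((ℓ : ZMod m) * a) = 0 := by
        have := ha
        push_cast at this
        linear_combination this
      by_cases hpl : p = ℓ
      · subst hpl
        have hc : ∀ i ∈ range p, φ ((p : ZMod m) * (a + (i : ZMod m) * (e : ZMod m))) =
            φ ((p : ZMod m) * a) := by
          intro i _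
          congr 1
          linear_combination (i : ZMod m) * mul_cast_zero hpe
        rw [sum_congr rfl hc, sum_const, card_range, nsmul_eq_mul, mul_div_cancel_left₀ _ hℓ0,
          v1 _ hMℓa]
      · have hcop : ℓ.Coprime p := (Nat.coprime_primes hℓ hp).mpr (Ne.symm hpl)
        have h3 : ∑ i ∈ range p, φ ((ℓ : ZMod m) * (a + (i : ZMod m) * (e : ZMod m))) =
            φ ((p : ZMod m) * ((ℓ : ZMod m) * a)) := by
          rw [← h.dist p e hp hpe hpM' _ hMℓa, ← coset_sum_coprime φ hpe hcop]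
          exact sum_congr rfl fun i _ => by rw [mul_add]
        have h4 : ¬ (M : ZMod m) * ((p : ZMod m) * a) = 0 := by
          intro h0
          apply h1
          have hA : ((M * ℓ : ℕ) : ZMod m) * a = 0 := ha
          have hB : ((M * p : ℕ) : ZMod m) * a = 0 := by
            push_cast
            linear_combination h0
          have := killed_gcd hA hB
          rwa [Nat.gcd_mul_left, hcop.gcd_eq_one, mul_one] at this
        rw [h3, v2 _ h4 (by
          have := ha
          push_cast at this ⊢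
          linear_combination (p : ZMod m) * this)]
        congr 2
        ring

/-- several steps in the direction of one prime -/
lemma ext_pow (h : PD M D φ) {q : ℕ} (hq : q.Prime) (hdvd : q ∣ M) (i : ℕ) :
    ∃ φ' : ZMod m → ℚ, PD (M * q ^ i) D φ' ∧ (∀ a, (M : ZMod m) * a = 0 → φ' a = φ a) ∧
      ∀ a, addOrderOf a = M * q ^ i → φ' a = φ (((q ^ i : ℕ) : ZMod m) * a) / (q : ℚ) ^ i := by
  induction i with
  | zero =>
    refine ⟨φ, by simpa using h, fun _ _ => rfl, fun a _ => ?_⟩
    simp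
  | succ i ih =>
    obtain ⟨φ1, h1, h2, h3⟩ := ih
    obtain ⟨φ2, k1, k2, k3⟩ := ext_dvd_val h1 hq (Dvd.dvd.mul_right hdvd _)
    refine ⟨φ2, by rw [pow_succ, ← mul_assoc]; exact k1, fun a ha => ?_, fun a ha => ?_⟩
    · rw [k2 a, h2 a ha]
      push_cast
      linear_combination ((q : ZMod m) ^ i) * ha
    · have hpos : 0 < addOrderOf a := addOrderOf_pos a
      have hM : 0 < M * q ^ i := Nat.pos_of_ne_zero (by
        intro h0
        rw [pow_succ, ← mul_assoc, h0, zero_mul] at ha
        omega)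
      have n1 : ¬ ((M * q ^ i : ℕ) : ZMod m) * a = 0 := by
        rw [← nsmul_eq_mul, ← addOrderOf_dvd_iff_nsmul_eq_zero, ha]
        intro h0
        have h4 := Nat.le_of_dvd hM h0
        rw [pow_succ, ← mul_assoc] at h4
        have h5 := hq.one_lt
        nlinarith
      have n2 : ((M * q ^ i * q : ℕ) : ZMod m) * a = 0 := by
        rw [← nsmul_eq_mul, ← addOrderOf_dvd_iff_nsmul_eq_zero, ha, pow_succ, ← mul_assoc]
      rw [k3 a n1 n2]
      have h6 : addOrderOf ((q : ZMod m) * a) = M * q ^ i := by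
        rw [← nsmul_eq_mul, addOrderOf_nsmul' _ hq.ne_zero, ha, pow_succ, ← mul_assoc,
          Nat.gcd_mul_left_left, Nat.mul_div_cancel _ hq.pos]
      rw [h3 _ h6, div_div, ← pow_succ]
      congr 2
      push_cast
      ring

end Ext

section Iota

variable {m R n D d : ℕ}

/-- multiples of embedded elements -/
lemma mul_iota [NeZero d] [NeZero D] (hR : R * d = m) (h : n * D = d) (b : ZMod d) :
    (n : ZMod m) * iota R b = iota (R * n) (ZMod.castHom (Dvd.intro_left n h) (ZMod D) b) := by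
  have hRn : R * n * D = m := by rw [mul_assoc, h, hR]
  have e : ZMod.castHom (Dvd.intro_left n h) (ZMod D) b = ((b.val : ℕ) : ZMod D) := by
    conv_lhs => rw [← ZMod.natCast_zmod_val b]
    rw [map_natCast]
  rw [e, iota_natCast hRn]
  unfold iota
  push_cast
  ring

end Iota

end Pool.Agent.Q59.DN
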