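import Pool.Agent.Q59.DN.Chain

/-!
# Lifting to the top power of one prime
-/

namespace Pool.Agent.Q59.DN

open Finset Pool.Agent.H916R2 Pool.Agent.Q59.FS Pool.Agent.Q59.PL

section Order

variable {m : ℕ} [NeZero m] {q : ℕ}

/-- `q ^ t` is the exact power of `q` in the order of `a` -/
def ex (q t : ℕ) (a : ZMod m) : Prop := q ^ t ∣ addOrderOf a ∧ ¬ q ^ (t + 1) ∣ addOrderOf a

omit [NeZero m] in
lemma dvd_order_mul (hq : q.Prime) {t : ℕ} (ht : 1 ≤ t) (b : ZMod m) :
    q ^ t ∣ addOrderOf ((q : ZMod m) * b) ↔ q ^ (t + 1) ∣ addOrderOf b := by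
  rw [← nsmul_eq_mul, addOrderOf_nsmul' _ hq.ne_zero]
  by_cases h : q ∣ addOrderOf b
  · obtain ⟨o, ho⟩ := h
    rw [ho, Nat.gcd_eq_right (dvd_mul_right q o), Nat.mul_div_cancel_left _ hq.pos, pow_succ,
      mul_comm (q ^ t) q]
    exact (Nat.mul_dvd_mul_iff_left hq.pos).symm
  · have h1 : (addOrderOf b).gcd q = 1 :=
      Nat.coprime_comm.mp ((Nat.Prime.coprime_iff_not_dvd hq).mpr h)
    rw [h1, Nat.div_one]
    constructor
    · intro h2
      exact absurd ((dvd_pow_self q (by omega)).trans h2) h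
    · intro h2
      exact absurd ((dvd_pow_self q (by omega)).trans h2) h

omit [NeZero m] in
lemma ex_mul (hq : q.Prime) {t : ℕ} (ht : 1 ≤ t) (b : ZMod m) :
    ex q t ((q : ZMod m) * b) ↔ ex q (t + 1) b := by
  unfold ex
  rw [dvd_order_mul hq ht, dvd_order_mul hq (by omega : 1 ≤ t + 1)]

lemma exists_mul_of_not_dvd (hq : q.Prime) {n : ℕ} (hn : q ^ n ∣ m) {a : ZMod m}
    (ha : ¬ q ^ n ∣ addOrderOf a) : ∃ b, a = (q : ZMod m) * b := by
  have h0 : addOrderOf a ∣ m := by
    have := addOrderOf_dvd_card (x := a)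
    rwa [ZMod.card] at this
  obtain ⟨h, hh⟩ := h0
  have h1 : q ∣ h := by
    by_contra hcon
    apply ha
    have h2 : (q ^ n).Coprime h := Nat.Coprime.pow_left n ((Nat.Prime.coprime_iff_not_dvd hq).mpr hcon)
    rw [hh] at hn
    exact h2.dvd_of_dvd_mul_right hn
  obtain ⟨h', hh'⟩ := h1
  have h2 : ((addOrderOf a * a.val : ℕ) : ZMod m) = 0 := by
    push_cast
    rw [ZMod.natCast_zmod_val, ← nsmul_eq_mul]
    exact addOrderOf_nsmul_eq_zero a
  rw [ZMod.natCast_eq_zero_iff] at h2
  have h3 : addOrderOf a * h ∣ addOrderOf a * a.val := by rw [← hh]; exact h2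
  have h4 := Nat.dvd_of_mul_dvd_mul_left (addOrderOf_pos a) h3
  obtain ⟨v, hv⟩ : q ∣ a.val := (Dvd.intro h' hh'.symm).trans h4
  refine ⟨((v : ℕ) : ZMod m), ?_⟩
  have h5 : ((q * v : ℕ) : ZMod m) = a := by rw [← hv, ZMod.natCast_zmod_val]
  rw [← h5]
  push_cast
  rfl

end Order

section Fibre

variable {m : ℕ} [NeZero m] {q e : ℕ}

lemma sum_fibre {Q : Type*} [AddCommMonoid Q] (hqe : q * e = m) (f : ZMod m → Q) (b0 : ZMod m) :
    ∑ b ∈ univ.filter (fun b : ZMod m => (q : ZMod m) * b = (q : ZMod m) * b0), f b =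
      ∑ i ∈ range q, f (b0 + (i : ZMod m) * (e : ZMod m)) := by
  have hm : 0 < m := NeZero.pos m
  have he : 0 < e := Nat.pos_of_ne_zero (by rintro rfl; rw [mul_zero] at hqe; omega)
  symm
  refine sum_bij (fun i _ => b0 + (i : ZMod m) * (e : ZMod m)) ?_ ?_ ?_ ?_
  · intro i _
    refine mem_filter.mpr ⟨mem_univ _, ?_⟩
    linear_combination (i : ZMod m) * mul_cast_zero hqe
  · intro i hi j hj hij
    have h1 : ((i * e : ℕ) : ZMod m) = ((j * e : ℕ) : ZMod m) := by
      push_cast
      exact add_left_cancel hij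
    rw [ZMod.natCast_eq_natCast_iff', Nat.mod_eq_of_lt, Nat.mod_eq_of_lt] at h1
    · exact Nat.eq_of_mul_eq_mul_right he h1
    · rw [← hqe]; exact Nat.mul_lt_mul_of_pos_right (mem_range.mp hj) he
    · rw [← hqe]; exact Nat.mul_lt_mul_of_pos_right (mem_range.mp hi) he
  · intro b hb
    have h1 : (q : ZMod m) * (b - b0) = 0 := by
      have := (mem_filter.mp hb).2
      linear_combination this
    obtain ⟨j, hj, hj'⟩ := exists_mul_of_killed hqe h1
    exact ⟨j, mem_range.mpr hj, by linear_combination -hj'⟩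
  · intro _ _
    rfl

/-- one step -/
lemma sum_step {Q : Type*} [AddCommGroup Q] {c : ZMod m → Q} (hc : OddDist c) (hq : q.Prime)
    (hqe : q * e = m) {F : ZMod m → ℤ} (hF : ∀ a, F a ≠ 0 → ∃ b, a = (q : ZMod m) * b) :
    ∑ a, F a • c a = ∑ b, F ((q : ZMod m) * b) • c b := by
  classical
  rw [← sum_fiberwise (s := (univ : Finset (ZMod m))) (g := fun b : ZMod m => (q : ZMod m) * b)
    (f := fun b => F ((q : ZMod m) * b) • c b)]
  refine sum_congr rfl fun a _ => ?_
  have h1 : ∀ b ∈ univ.filter (fun b : ZMod m => (q : ZMod m) * b = a),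
      F ((q : ZMod m) * b) • c b = F a • c b := fun b hb => by rw [(mem_filter.mp hb).2]
  rw [sum_congr rfl h1, ← smul_sum]
  by_cases h : F a = 0
  · rw [h, zero_smul, zero_smul]
  · obtain ⟨b0, rfl⟩ := hF a h
    rw [sum_fibre hqe, hc.dist q e hq hqe]

/-- one step, without weights -/
lemma sum_step_one (hqe : q * e = m) {F : ZMod m → ℤ}
    (hF : ∀ a, F a ≠ 0 → ∃ b, a = (q : ZMod m) * b) :
    ∑ b, F ((q : ZMod m) * b) = q * ∑ a, F a := by
  classical
  rw [← sum_fiberwise (s := (univ : Finset (ZMod m))) (g := fun b : ZMod m => (q : ZMod m) * b)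
    (f := fun b => F ((q : ZMod m) * b)), mul_sum]
  refine sum_congr rfl fun a _ => ?_
  have h1 : ∀ b ∈ univ.filter (fun b : ZMod m => (q : ZMod m) * b = a),
      F ((q : ZMod m) * b) = F a := fun b hb => by rw [(mem_filter.mp hb).2]
  rw [sum_congr rfl h1]
  by_cases h : F a = 0
  · rw [h]; simp
  · obtain ⟨b0, rfl⟩ := hF a h
    rw [sum_fibre hqe]
    simp

end Fibre

section Lift

variable {m : ℕ} [NeZero m] {q e n : ℕ}

open scoped Classical in
lemma sum_shift {Q : Type*} [AddCommGroup Q] {c : ZMod m → Q} (hc : OddDist c) (hq : q.Prime)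
    (hn : q ^ n ∣ m) : ∀ j t : ℕ, t + j = n → 1 ≤ t → ∀ f : ZMod m → ℤ,
      ∑ a, (if ex q t a then f a else 0) • c a =
        ∑ b, (if ex q n b then f (((q ^ j : ℕ) : ZMod m) * b) else 0) • c b := by
  intro j
  induction j with
  | zero =>
    intro t ht _ f
    rw [add_zero] at ht
    subst ht
    simp
  | succ j ih =>
    intro t ht h1 f
    obtain ⟨e, he⟩ : q ∣ m := (dvd_pow_self q (by omega)).trans hn
    rw [sum_step hc hq he.symm (F := fun a => if ex q t a then f a else 0)]
    · have h2 := ih (t + 1) (by omega) (by omega) (fun b => f ((q : ZMod m) * b))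
      have h3 : ∀ b : ZMod m, (if ex q t ((q : ZMod m) * b) then f ((q : ZMod m) * b) else 0) • c b =
          (if ex q (t + 1) b then f ((q : ZMod m) * b) else 0) • c b := by
        intro b
        rw [if_congr (ex_mul hq h1 b) rfl rfl]
      rw [sum_congr rfl fun b _ => h3 b, h2]
      refine sum_congr rfl fun b _ => ?_
      congr 3
      push_cast
      ring
    · intro a ha
      have h2 : ex q t a := by
        by_contra hcon
        exact ha (if_neg hcon)
      refine exists_mul_of_not_dvd hq hn fun h3 => h2.2 ?_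
      exact (pow_dvd_pow q (by omega)).trans h3

open scoped Classical in
lemma sum_shift_one (hq : q.Prime) (hn : q ^ n ∣ m) : ∀ j t : ℕ, t + j = n → 1 ≤ t →
    ∀ f : ZMod m → ℤ, ∑ b, (if ex q n b then f (((q ^ j : ℕ) : ZMod m) * b) else 0) =
      (q : ℤ) ^ j * ∑ a, (if ex q t a then f a else 0) := by
  intro j
  induction j with
  | zero =>
    intro t ht _ f
    rw [add_zero] at ht
    subst ht
    simp
  | succ j ih =>
    intro t ht h1 f
    obtain ⟨e, he⟩ : q ∣ m := (dvd_pow_self q (by omega)).trans hn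
    have h2 := ih (t + 1) (by omega) (by omega) (fun b => f ((q : ZMod m) * b))
    have h3 : ∑ b : ZMod m, (if ex q (t + 1) b then f ((q : ZMod m) * b) else 0) =
        q * ∑ a : ZMod m, (if ex q t a then f a else 0) := by
      rw [← sum_step_one he.symm (F := fun a : ZMod m => if ex q t a then f a else 0)]
      · exact sum_congr rfl fun b _ => (if_congr (ex_mul hq h1 b) rfl rfl).symm
      · intro a ha
        have h2 : ex q t a := by
          by_contra hcon
          exact ha (if_neg hcon)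
        refine exists_mul_of_not_dvd hq hn fun h3 => h2.2 ?_
        exact (pow_dvd_pow q (by omega)).trans h3
    rw [h3] at h2
    have h4 : (q : ℤ) ^ (j + 1) * ∑ a : ZMod m, (if ex q t a then f a else 0) =
        (q : ℤ) ^ j * (q * ∑ a : ZMod m, (if ex q t a then f a else 0)) := by ring
    rw [h4, ← h2]
    refine sum_congr rfl fun b _ => ?_
    congr 2
    push_cast
    ring

omit [NeZero m] in
open scoped Classical in
lemma sum_ex {a : ZMod m} (ha : ¬ q ^ (n + 1) ∣ addOrderOf a) : ∀ k e : ℕ, e + k = n →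
    ∑ j ∈ range k, (if ex q (n - j) a then (1 : ℤ) else 0) =
      if q ^ (e + 1) ∣ addOrderOf a then 1 else 0 := by
  intro k
  induction k with
  | zero =>
    intro e he
    rw [add_zero] at he
    subst he
    rw [range_zero, sum_empty, if_neg ha]
  | succ k ih =>
    intro e he
    rw [sum_range_succ, ih (e + 1) (by omega)]
    have h1 : n - k = e + 1 := by omega
    rw [h1]
    unfold ex
    by_cases h2 : q ^ (e + 1 + 1) ∣ addOrderOf a
    · have h3 : q ^ (e + 1) ∣ addOrderOf a := (pow_dvd_pow q (by omega)).trans h2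
      rw [if_pos h2, if_neg (fun h => h.2 h2), if_pos h3, add_zero]
    · by_cases h3 : q ^ (e + 1) ∣ addOrderOf a
      · rw [if_neg h2, if_pos ⟨h3, h2⟩, if_pos h3, zero_add]
      · rw [if_neg h2, if_neg (fun h => h3 h.1), if_neg h3, add_zero]

open scoped Classical in
/-- the lift -/
noncomputable def lf (q n k : ℕ) (x : ZMod m → ℤ) : ZMod m → ℤ := fun b =>
  if ex q n b then ∑ j ∈ range k, x (((q ^ j : ℕ) : ZMod m) * b) else 0

lemma not_dvd_order (hm : ¬ q ^ (n + 1) ∣ m) (a : ZMod m) : ¬ q ^ (n + 1) ∣ addOrderOf a := by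
  intro h
  apply hm
  have h1 : addOrderOf a ∣ m := by
    have := addOrderOf_dvd_card (x := a)
    rwa [ZMod.card] at this
  exact h.trans h1

open scoped Classical in
theorem sum_lf {Q : Type*} [AddCommGroup Q] {c : ZMod m → Q} (hc : OddDist c) (hq : q.Prime)
    (hn : q ^ n ∣ m) (hm : ¬ q ^ (n + 1) ∣ m) {k e : ℕ} (hek : e + k = n) (x : ZMod m → ℤ) :
    ∑ b, lf q n k x b • c b =
      ∑ a, (if q ^ (e + 1) ∣ addOrderOf a then x a else 0) • c a := by
  have h1 : ∀ b, lf q n k x b • c b =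
      ∑ j ∈ range k, (if ex q n b then x (((q ^ j : ℕ) : ZMod m) * b) else 0) • c b := by
    intro b
    unfold lf
    split_ifs with h
    · rw [sum_smul]
    · simp
  rw [sum_congr rfl fun b _ => h1 b, sum_comm]
  have h2 : ∀ j ∈ range k, ∑ b, (if ex q n b then x (((q ^ j : ℕ) : ZMod m) * b) else 0) • c b =
      ∑ a, (if ex q (n - j) a then x a else 0) • c a := by
    intro j hj
    have := mem_range.mp hj
    exact (sum_shift hc hq hn j (n - j) (by omega) (by omega) x).symm
  rw [sum_congr rfl h2, sum_comm]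
  refine sum_congr rfl fun a _ => ?_
  rw [← sum_smul]
  congr 1
  have h3 : ∀ j, (if ex q (n - j) a then x a else 0) = (if ex q (n - j) a then (1 : ℤ) else 0) * x a := by
    intro j
    split_ifs
    · rw [one_mul]
    · rw [zero_mul]
  rw [sum_congr rfl fun j _ => h3 j, ← sum_mul, sum_ex (not_dvd_order hm a) k e hek]
  split_ifs
  · rw [one_mul]
  · rw [zero_mul]

theorem H0_lf (hq : q.Prime) (hn : q ^ n ∣ m) (hm : ¬ q ^ (n + 1) ∣ m) {k e : ℕ} (hek : e + k = n)
    {x : ZMod m → ℤ} (hx : Rel x) : H0 (q ^ (e + 1)) (lf q n k x) := by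
  classical
  intro φ hφ hz
  have h1 := sum_lf hφ hq hn hm hek x
  simp only [zsmul_eq_mul] at h1
  rw [h1, ← rel_rat hx hφ]
  refine sum_congr rfl fun a _ => ?_
  split_ifs with h
  · rfl
  · rw [hz a h, mul_zero, mul_zero]

omit [NeZero m] in
lemma od_lf {k : ℕ} (x : ZMod m → ℤ) {a : ZMod m} (h : od (lf q n k x) a ≠ 0) :
    q ^ n ∣ addOrderOf a := by
  by_contra hcon
  apply h
  unfold od lf ex
  rw [addOrderOf_neg, if_neg (fun h => hcon h.1), if_neg (fun h => hcon h.1), sub_self]

end Lift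

end Pool.Agent.Q59.DN
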