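import Pool.Agent.Q59.DN.Cut
import Pool.Agent.Q59.RL.Small

/-!
# Hodge characters and characters of bounded degree
-/

namespace Pool.Agent.Q59.DN

open Finset Pool.Agent.H916R2 Pool.Agent.Q59.FS Pool.Agent.Q59.PL
open Pool.Agent.Q59.RL (B0 half_add_half)

section Main

variable {m : ℕ} [NeZero m]

/-- multisets of class zero are generated by the standard characters -/
lemma gen_B0 (hm : 2 ≤ m) {t : Multiset (ZMod m)} (h0 : (0 : ZMod m) ∉ t)
    (heven : Even (Multiset.card t)) (hsum : (t.map (cQ m (B0 m))).sum = 0) :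
    Generated m (B0 m) t := by
  by_cases ht : t = 0
  · subst ht
    have : Fact (1 < m) := ⟨hm⟩
    exact Generated.cancel 1 0 (Generated.pair 1 one_ne_zero)
  · rw [cQ_sum, QuotientAddGroup.eq_zero_iff] at hsum
    exact generated_of_mem_LL (fun s h => h.elim) (fun s h => h.elim) h0 heven ht hsum

lemma RelM.saw {s : Multiset (ZMod m)} (h : RelM s) (t : (ZMod m)ˣ) :
    (s.map fun a => saw ((t : ZMod m) * a)).sum = 0 := by
  rw [← sum_count]
  simp only [smul_eq_mul]
  exact h t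

/-- relations of odd size exist in even degree only -/
lemma two_dvd_of_odd {s : Multiset (ZMod m)} (h : RelM s) (h0 : (0 : ZMod m) ∉ s)
    (hodd : Odd (Multiset.card s)) : 2 ∣ m := by
  have h1 := saw_sum_eq s h0 1
  rw [h.saw 1] at h1
  obtain ⟨k, hk⟩ := hodd
  have h2 : (m : ℤ) * (2 * k + 1) =
      2 * (((s.map fun a => (((1 : (ZMod m)ˣ) : ZMod m) * a).val).sum : ℕ) : ℤ) := by
    rw [hk] at h1
    push_cast at h1
    push_cast
    linarith
  have h3 : (2 : ℤ) ∣ (m : ℤ) * (2 * k + 1) := ⟨_, h2⟩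
  have h4 : (2 : ℤ) ∣ (m : ℤ) := by
    rcases Int.Prime.dvd_mul' Nat.prime_two h3 with h | h
    · exact_mod_cast h
    · exfalso; omega
  exact_mod_cast h4

lemma half_ne_zero (hm : 2 ∣ m) : ((m / 2 : ℕ) : ZMod m) ≠ 0 := by
  intro h'
  rw [ZMod.natCast_eq_zero_iff] at h'
  have hmp := NeZero.pos m
  have h5 : 0 < m / 2 := Nat.div_pos (Nat.le_of_dvd hmp hm) (by norm_num)
  have := Nat.le_of_dvd h5 h'
  omega

/-- **Splitting.** -/
theorem splitting {N : ℕ} (hm : 2 ≤ m) {s : Multiset (ZMod m)} (hs : IsHodge m s)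
    (hcard : Multiset.card s ≤ N) :
    ∃ s0 s1 : Multiset (ZMod m), s = s0 + s1 ∧ (∀ a ∈ s0, (lev N : ZMod m) * a = 0) ∧
      ((IsHodge m s0 ∧ Generated m (B0 m) s1) ∨
        (2 ∣ m ∧ IsHodge m (((m / 2 : ℕ) : ZMod m) ::ₘ s0) ∧
          Generated m (B0 m) (((m / 2 : ℕ) : ZMod m) ::ₘ s1))) := by
  classical
  obtain ⟨s0, h1, h2, h3⟩ := structure_thm (N := N) hs.rel hcard
  obtain ⟨s1, hs1⟩ := Multiset.le_iff_exists_add.mp h1
  have hr : RelM s0 := h3.rel hs.rel
  have h01 : (0 : ZMod m) ∉ s0 := fun h => hs.1 (by rw [hs1]; exact Multiset.mem_add.mpr (Or.inl h))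
  have h02 : (0 : ZMod m) ∉ s1 := fun h => hs.1 (by rw [hs1]; exact Multiset.mem_add.mpr (Or.inr h))
  have hcl : (s1.map (cQ m (B0 m))).sum = 0 := by
    have h4 := h3 _ (cQ m (B0 m)) cQ_oddDist
    rw [hs1, Multiset.map_add, Multiset.sum_add] at h4
    exact add_eq_left.mp h4
  have hev : Even (Multiset.card s0 + Multiset.card s1) := by
    rw [← Multiset.card_add, ← hs1]
    exact hs.2.1
  refine ⟨s0, s1, hs1, fun a ha => ?_, ?_⟩
  · rw [← nsmul_eq_mul, ← addOrderOf_dvd_iff_nsmul_eq_zero]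
    exact h2 a ha
  · by_cases he : Even (Multiset.card s0)
    · left
      exact ⟨isHodge_of_saw h01 he hr.saw, gen_B0 hm h02 ((Nat.even_add.mp hev).mp he) hcl⟩
    · right
      have hodd0 : Odd (Multiset.card s0) := Nat.not_even_iff_odd.mp he
      have hodd1 : Odd (Multiset.card s1) :=
        Nat.not_even_iff_odd.mp fun h => he ((Nat.even_add.mp hev).mpr h)
      have h2m := two_dvd_of_odd hr h01 hodd0
      have hh := half_ne_zero h2m
      have hhh := half_add_half h2m
      refine ⟨h2m, isHodge_of_saw ?_ ?_ ?_, gen_B0 hm ?_ ?_ ?_⟩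
      · rw [Multiset.mem_cons, not_or]; exact ⟨Ne.symm hh, h01⟩
      · rw [Multiset.card_cons]; exact hodd0.add_one
      · intro t
        rw [Multiset.map_cons, Multiset.sum_cons, hr.saw t, add_zero]
        apply saw_half
        rw [← mul_add, hhh, mul_zero]
      · rw [Multiset.mem_cons, not_or]; exact ⟨Ne.symm hh, h02⟩
      · rw [Multiset.card_cons]; exact hodd1.add_one
      · rw [Multiset.map_cons, Multiset.sum_cons, hcl, add_zero]
        exact cQ_oddDist.half _ hhh

end Main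

end Pool.Agent.Q59.DN
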