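import Pool.Agent.Q59.DN.Lift

/-!
# Peeling high powers of a small prime
-/

namespace Pool.Agent.Q59.DN

open Finset Pool.Agent.H916R2 Pool.Agent.Q59.FS Pool.Agent.Q59.PL

section Kill

variable {m R d : ℕ} [NeZero m] [NeZero d]

/-- Removing the top part, which is a sum of functions invariant in the directions of a list. -/
theorem kill_list' {q : ℕ} (hR : R * d = m) :
    ∀ (L : List ℕ), (∀ ℓ ∈ L, ℓ.Prime ∧ ℓ ≠ q ∧ ℓ ∣ d) → L.Nodup → ¬ d ∣ 2 * L.prod →
    ∀ (x : ZMod m → ℤ),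
      (∀ u : (ZMod d)ˣ, LB (L.map (KL d)) (TT u (fun v => od x (iota R (v : ZMod d))))) →
      ∃ y : ZMod m → ℤ, Eqv q y x ∧ (∀ u : (ZMod d)ˣ, od y (iota R (u : ZMod d)) = 0) ∧
        (∀ a, addOrderOf a ≠ d → (∀ ℓ, ℓ.Prime → ℓ ≠ q → ℓ * addOrderOf a ≠ d) → od y a = od x a) := by
  intro L
  induction L with
  | nil =>
    intro _ _ _ x h
    refine ⟨x, Eqv.refl q x, fun u => ?_, fun _ _ _ => rfl⟩
    have h1 : TT u (fun v => od x (iota R ((v : (ZMod d)ˣ) : ZMod d))) 1 = 0 := h u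
    rw [TT_apply, mul_one] at h1
    exact h1
  | cons ℓ L ih =>
    intro hL hnd hnprod x h
    obtain ⟨hℓ, hℓq, hℓd⟩ := hL ℓ (List.mem_cons_self ..)
    have hL' : ∀ r ∈ L, r.Prime ∧ r ≠ q ∧ r ∣ d := fun r hr => hL r (List.mem_cons_of_mem _ hr)
    set F : (ZMod d)ˣ → ℤ := fun v => od x (iota R (v : ZMod d)) with hF
    have hFodd : ∀ u, F (-1 * u) = - F u := by
      intro u
      rw [neg_one_mul, hF]
      simp only
      rw [Units.val_neg, iota_neg hR, od_neg]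
    have hprime : ∀ r ∈ ℓ :: L, r.Prime := fun r hr => (hL r hr).1
    have hind : Ind ((ℓ :: L).map (KL d)) := ind_KL d hprime hnd
    have hneg : (-1 : (ZMod d)ˣ) ∉ jn ((ℓ :: L).map (KL d)) := by
      intro h0
      have h1 := jn_KL_le d _ h0
      rw [mem_KL, Units.val_neg, Units.val_one] at h1
      have h2 : ((2 * (ℓ :: L).prod : ℕ) : ZMod d) = 0 := by
        push_cast
        push_cast at h1
        linear_combination -h1
      rw [ZMod.natCast_eq_zero_iff] at h2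
      exact hnprod h2
    have hK : KL d ℓ ⊓ (jn (L.map (KL d)) ⊔ Subgroup.zpowers (-1 : (ZMod d)ˣ)) = ⊥ := by
      rw [eq_bot_iff]
      rintro κ ⟨hκ, hκ'⟩
      obtain ⟨v, hv, z, hz, rfl⟩ := Subgroup.mem_sup.mp hκ'
      obtain ⟨k, rfl⟩ := Subgroup.mem_zpowers_iff.mp hz
      rcases Int.even_or_odd k with hk | hk
      · rw [hk.neg_one_zpow, mul_one] at hκ ⊢
        have h1 : v ∈ KL d ℓ ⊓ jn (L.map (KL d)) := ⟨hκ, hv⟩
        have h2 : KL d ℓ ⊓ jn (L.map (KL d)) = ⊥ := hind.1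
        rw [h2] at h1
        exact h1
      · exfalso
        rw [hk.neg_one_zpow] at hκ
        apply hneg
        have h1 : (-1 : (ZMod d)ˣ) = v * -1 * v⁻¹ := by
          rw [mul_comm v (-1), mul_inv_cancel_right]
        rw [h1]
        exact Subgroup.mul_mem_sup hκ ((jn (L.map (KL d))).inv_mem hv)
    obtain ⟨g, hg⟩ := Pool.Agent.Q59.SX.exists_sel (KL d ℓ) (L.map (KL d)) (-1) F hFodd hK
    have hgo : ∀ u, g (-u) = - g u := fun u => by
      have := hg.odd u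
      rwa [neg_one_mul] at this
    obtain ⟨d', hd'⟩ := hℓd
    have hd'0 : d' ≠ 0 := by
      rintro rfl
      rw [mul_zero] at hd'
      exact NeZero.ne d hd'
    have : NeZero d' := ⟨hd'0⟩
    have hinv : ∀ κ ∈ KK hd'.symm, ∀ u, g (u * κ) = g u := by
      intro κ hκ u
      rw [← KL_eq_KK hℓ.pos hd'.symm] at hκ
      exact hg.inv κ hκ u
    obtain ⟨x1, e1, e2, e3⟩ := move_part hR hℓ hℓq hd'.symm x hinv hgo
    have hLB1 : ∀ u : (ZMod d)ˣ, LB (L.map (KL d))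
        (TT u (fun v => od x1 (iota R (v : ZMod d)))) := by
      intro u
      have h1 := hg.lb (h u)
      have h2 : (fun v : (ZMod d)ˣ => od x1 (iota R (v : ZMod d))) = fun v => F v - g v := by
        funext v
        rw [e2 v]
      rw [h2]
      exact h1
    obtain ⟨y, f1, f2, f3⟩ := ih hL' (List.nodup_cons.mp hnd).2 (fun h0 => hnprod (h0.trans
      (Nat.mul_dvd_mul_left 2 (by rw [List.prod_cons]; exact Dvd.intro_left ℓ rfl)))) x1 hLB1
    refine ⟨y, f1.trans e1, f2, fun a ha ha' => ?_⟩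
    rw [f3 a ha ha', e3 a ha]
    intro h0
    exact ha' ℓ hℓ hℓq (by rw [h0, hd'])

end Kill

section Peel

variable {m : ℕ} [NeZero m] {q n : ℕ}

/-- the states: `x` is equal to `x0` modulo the relations of the primes different from `q`, its
orders are divisible by `q ^ n` and at most `D` -/
structure St1 (q n : ℕ) (x0 : ZMod m → ℤ) (D : ℕ) (x : ZMod m → ℤ) : Prop where
  eqv : Eqv q x x0
  pow : ∀ a, od x a ≠ 0 → q ^ n ∣ addOrderOf a
  top : ∀ a, od x a ≠ 0 → addOrderOf a ≤ D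

lemma H0.of_eqv {T : ℕ} {x x0 : ZMod m → ℤ} (h : H0 T x0) (hE : Eqv q x x0) : H0 T x := by
  intro φ hφ hz
  have h1 := hE ℚ φ (Part.of_oddDist q hφ)
  simp only [zsmul_eq_mul] at h1
  rw [h1]
  exact h φ hφ hz

theorem step1 {R d : ℕ} [NeZero d] (hq : q.Prime) (hR : R * d = m) (hqd : q ^ n ∣ d)
    (hm : ¬ q ^ (n + 1) ∣ m) {e k : ℕ} (he : 1 ≤ e) (hek : e + k = n) (hk : 1 ≤ k)
    {x0 x : ZMod m → ℤ} (hx0 : H0 (q ^ (e + 1)) x0) (hn : nq q x0 < (q : ℤ) ^ k)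
    (hst : St1 q n x0 d x) : ∃ y, St1 q n x0 (d - 1) y := by
  classical
  obtain ⟨d2, hd2⟩ := hqd
  have hc : q.Coprime d2 := by
    rw [Nat.Prime.coprime_iff_not_dvd hq]
    rintro ⟨d3, rfl⟩
    apply hm
    rw [← hR, hd2]
    exact ⟨R * d3, by rw [pow_succ]; ring⟩
  have hqd : q ∣ d := by
    rw [hd2]
    exact Dvd.dvd.mul_right (dvd_pow_self q (by omega)) _
  have htop : ∀ a, od x a ≠ 0 → d ∣ addOrderOf a → addOrderOf a = d := fun a ha hda =>
    le_antisymm (hst.top a ha) (Nat.le_of_dvd (addOrderOf_pos a) hda)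
  have hLp : ∀ ℓ ∈ Lq d q q, ℓ.Prime ∧ ℓ ≠ q ∧ ℓ ∣ d := by
    intro ℓ hℓ
    obtain ⟨k1, k2, k3, _⟩ := mem_Lq.mp hℓ
    exact ⟨k1, k3, k2⟩
  have hcopL : (q ^ k).Coprime (Lq d q q).prod := by
    apply Nat.Coprime.pow_left
    rw [Nat.Prime.coprime_iff_not_dvd hq]
    intro h0
    obtain ⟨r, hr, hqr⟩ := (Nat.Prime.prime hq).dvd_prod_iff.mp h0
    have h1 := (Nat.prime_dvd_prime_iff_eq hq (hLp r hr).1).mp hqr
    exact (hLp r hr).2.1 h1.symm
  have hind : Ind (KL d (q ^ k) :: (Lq d q q).map (KL d)) := by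
    refine ⟨?_, ind_KL d (fun p hp => (hLp p hp).1) nodup_Lq⟩
    rw [eq_bot_iff, ← KL_inf hcopL]
    exact inf_le_inf_left _ (jn_KL_le d _)
  have hcard : Nat.card (KL d (q ^ k)) = q ^ k := by
    refine card_KL_pow hq (D := q ^ e * d2) ?_ (Dvd.dvd.mul_right (dvd_pow_self q (by omega)) _)
    rw [← mul_assoc, ← pow_add, hd2, ← hek, add_comm k]
  have hH := hx0.of_eqv hst.eqv
  have hLB : ∀ u, LB ((Lq d q q).map (KL d)) (TT u (FF R d x)) := by
    intro u
    refine key_simple (n := nq q x0) hind (z := -1) (by rw [neg_mul_neg, one_mul]) (fun w => ?_)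
      (fun b hb => ?_) (fun b h1 h2 h3 => ?_) ?_ u
    · unfold FF
      rw [neg_one_mul, Units.val_neg, iota_neg hR, od_neg]
    · unfold FF
      refine big_rel hq hR hd2.symm hc he hek hH hst.pow htop (fun ℓ hℓ hℓq hℓd u => ?_)
        (fun u => hb _ (List.mem_cons_self ..) u)
      exact hb _ (List.mem_cons_of_mem _ (List.mem_map.mpr ⟨ℓ, mem_Lq.mpr ⟨hℓ, hℓd, hℓq, hℓq⟩,
        rfl⟩)) u
    · refine pairing hq hR hqd hst.eqv htop (fun u => ?_) h2 fun ℓ hℓ hℓq hℓd u => ?_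
      · have := h1 u
        rwa [neg_one_mul] at this
      · exact h3 _ (List.mem_map.mpr ⟨ℓ, mem_Lq.mpr ⟨hℓ, hℓd, hℓq, hℓq⟩, rfl⟩) u
    · rw [hcard]
      push_cast
      exact hn
  have hnd : ¬ d ∣ 2 * (Lq d q q).prod := by
    intro h0
    have h1 : q ^ 2 ∣ d := by
      rw [hd2]
      exact Dvd.dvd.mul_right (pow_dvd_pow q (by omega)) _
    have hcop2 : (q ^ 2).Coprime (Lq d q q).prod := by
      apply Nat.Coprime.pow_left
      exact Nat.Coprime.coprime_dvd_left (dvd_pow_self q (by omega)) hcopL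
    have h2 := hcop2.dvd_of_dvd_mul_right (h1.trans h0)
    have h3 := Nat.le_of_dvd (by norm_num) h2
    have h4 := hq.two_le
    nlinarith
  obtain ⟨y, h1, h2, h3⟩ := kill_list' hR (Lq d q q) hLp nodup_Lq hnd x hLB
  have hcase : ∀ a, od y a ≠ 0 → addOrderOf a ≠ d ∧
      (od x a ≠ 0 ∨ ∃ ℓ, ℓ.Prime ∧ ℓ ≠ q ∧ ℓ * addOrderOf a = d) := by
    intro a ha
    have h4 : addOrderOf a ≠ d := by
      intro h0
      obtain ⟨u, hu⟩ := exists_unit hR h0
      rw [← hu, h2 u] at ha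
      exact ha rfl
    refine ⟨h4, ?_⟩
    by_cases h5 : ∀ ℓ, ℓ.Prime → ℓ ≠ q → ℓ * addOrderOf a ≠ d
    · left
      rw [h3 a h4 h5] at ha
      exact ha
    · push Not at h5
      obtain ⟨ℓ, k1, k2, k3⟩ := h5
      exact Or.inr ⟨ℓ, k1, k2, k3⟩
  refine ⟨y, h1.trans hst.eqv, fun a ha => ?_, fun a ha => ?_⟩
  · obtain ⟨_, h5 | ⟨ℓ, k1, k2, k3⟩⟩ := hcase a ha
    · exact hst.pow a h5
    · have h6 : (q ^ n).Coprime ℓ := Nat.Coprime.pow_left n ((Nat.coprime_primes hq k1).mpr k2.symm)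
      refine h6.dvd_of_dvd_mul_left ?_
      rw [k3, hd2]
      exact Dvd.intro _ rfl
  · obtain ⟨h4, h5 | ⟨ℓ, k1, k2, k3⟩⟩ := hcase a ha
    · have := hst.top a h5
      omega
    · have hpos := addOrderOf_pos a
      have h7 : addOrderOf a < d := by
        rw [← k3]; exact lt_mul_of_one_lt_left hpos k1.one_lt
      omega

/-- going down -/
theorem down1 (hq : q.Prime) (hm : ¬ q ^ (n + 1) ∣ m) {e k : ℕ} (he : 1 ≤ e) (hek : e + k = n)
    (hk : 1 ≤ k) {x0 : ZMod m → ℤ} (hx0 : H0 (q ^ (e + 1)) x0) (hn : nq q x0 < (q : ℤ) ^ k) :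
    ∀ D : ℕ, (∃ x, St1 q n x0 D x) → ∃ x, St1 q n x0 0 x := by
  intro D
  induction D with
  | zero => exact id
  | succ D ih =>
    rintro ⟨x, hx⟩
    apply ih
    by_cases h1 : (D + 1) ∣ m ∧ q ^ n ∣ (D + 1)
    · obtain ⟨⟨R, hR⟩, hqD⟩ := h1
      have hR1 : R * (D + 1) = m := by rw [hR]; ring
      exact step1 hq hR1 hqD hm he hek hk hx0 hn hx
    · refine ⟨x, hx.eqv, hx.pow, fun a h3 => ?_⟩
      have h4 := hx.top a h3
      have h5 : addOrderOf a ∣ m := by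
        have := addOrderOf_dvd_card (x := a)
        rwa [ZMod.card] at this
      have h6 : addOrderOf a ≠ D + 1 := fun h0 => h1 ⟨h0 ▸ h5, h0 ▸ hx.pow a h3⟩
      omega

open scoped Classical in
/-- **High powers of a prime can be removed.** -/
theorem far_zero (hq : q.Prime) (hn : q ^ n ∣ m) (hm : ¬ q ^ (n + 1) ∣ m) {e k : ℕ} (he : 1 ≤ e)
    (hek : e + k = n) (hk : 1 ≤ k) {x : ZMod m → ℤ} (hx : Rel x)
    (hsm : nq q (lf q n k x) < (q : ℤ) ^ k) {Q : Type} [AddCommGroup Q] {c : ZMod m → Q}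
    (hc : OddDist c) : ∑ a, (if q ^ (e + 1) ∣ addOrderOf a then x a else 0) • c a = 0 := by
  rw [← sum_lf hc hq hn hm hek x]
  obtain ⟨y, hy⟩ := down1 hq hm he hek hk (H0_lf hq hn hm hek hx) hsm m
    ⟨lf q n k x, Eqv.refl q _, fun a ha => od_lf x ha, fun a _ => by
      have h1 : addOrderOf a ∣ m := by
        have := addOrderOf_dvd_card (x := a)
        rwa [ZMod.card] at this
      exact Nat.le_of_dvd (NeZero.pos m) h1⟩
  rw [← hy.eqv Q c (Part.of_oddDist q hc)]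
  refine even_kill' (fun a => ?_) hc.neg hc.half
  have h1 : od y a = 0 := by
    by_contra h0
    have h2 := hy.top a h0
    have h3 := addOrderOf_pos a
    omega
  unfold od at h1
  linarith

end Peel

end Pool.Agent.Q59.DN
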